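import Pool.Agent.Helper377_NS.Step

/-!
Finiteness of the Ext groups between finite-dimensional and finitely generated modules.
-/

set_option autoImplicit false

open CategoryTheory
open scoped TensorProduct

namespace Pool.Agent.Helper377_NS

open Pool.Agent.Helper202_BG

section
variable {k R : Type} [Field k] [Ring R] [Algebra k R]

theorem finite_mid {A B C : Type} [AddCommGroup A] [Module k A] [AddCommGroup B] [Module k B]
    [AddCommGroup C] [Module k C] (f : A →ₗ[k] B) (g : B →ₗ[k] C)
    (h : ∀ b, g b = 0 → ∃ a, f a = b) (hA : Module.Finite k A) (hC : Module.Finite k C) :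
    Module.Finite k B := by
  have h1 : Module.Finite k (LinearMap.ker g) := by
    have : LinearMap.ker g ≤ LinearMap.range f := fun b hb => h b hb
    exact Module.Finite.of_injective (Submodule.inclusion this) (Submodule.inclusion_injective this)
  have h2 : Module.Finite k (B ⧸ LinearMap.ker g) :=
    Module.Finite.equiv g.quotKerEquivRange.symm
  exact Module.Finite.of_submodule_quotient (LinearMap.ker g)

variable {V : Type} [AddCommGroup V] [Module R V] {X : Type} [AddCommGroup X] [Module R X]
  {Y : Type} [AddCommGroup Y] [Module R Y] {Z : Type} [AddCommGroup Z] [Module R Z]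

variable (k) in
/-- `post` as a linear map -/
noncomputable def postL (g : X →ₗ[R] Y) (n : ℕ) : E R V X n →ₗ[k] E R V Y n where
  toFun ξ := post g ξ
  map_add' := post_add g
  map_smul' c ξ := by
    simp [post]

variable (k) in
/-- `pre` as a linear map -/
noncomputable def preL (g : X →ₗ[R] Y) (n : ℕ) : E R Y V n →ₗ[k] E R X V n where
  toFun ξ := pre g ξ
  map_add' := pre_add g
  map_smul' c ξ := by
    simp [pre]

variable (k) in
/-- `dl` as a linear map -/
noncomputable def dlL {i : X →ₗ[R] Y} {p : Y →ₗ[R] Z} (h : SES i p) (n : ℕ) :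
    E R V Z n →ₗ[k] E R V X (n + 1) where
  toFun ξ := dl h ξ
  map_add' := dl_add h
  map_smul' c ξ := by
    simp [dl]

variable (k) in
/-- `dr` as a linear map -/
noncomputable def drL {i : X →ₗ[R] Y} {p : Y →ₗ[R] Z} (h : SES i p) (n : ℕ) :
    E R X V n →ₗ[k] E R Z V (n + 1) where
  toFun ξ := dr h ξ
  map_add' := dr_add h
  map_smul' c ξ := by
    simp [dr]

theorem fin_ses {i : X →ₗ[R] Y} {p : Y →ₗ[R] Z} (h : SES i p) (n : ℕ)
    (hX : Module.Finite k (E R V X n)) (hZ : Module.Finite k (E R V Z n)) :
    Module.Finite k (E R V Y n) :=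
  finite_mid (postL k i n) (postL k p n) (fun b hb => cov2 h b hb) hX hZ

/-- finitely generated modules with cofinite annihilator are finite-dimensional -/
theorem finite_of_ann (X : Type) [AddCommGroup X] [Module R X] [Module k X]
    [IsScalarTower k R X] [Module.Finite R X] (h : Module.Finite k (R ⧸ Module.annihilator R X)) :
    Module.Finite k X := by
  obtain ⟨m, v, hv⟩ := Module.Finite.exists_fin (R := R) (M := X)
  let φ : (Fin m → R) →ₗ[R] X := Fintype.linearCombination R v
  have hφ : Function.Surjective φ := by
    rw [← LinearMap.range_eq_top, Fintype.range_linearCombination, hv]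
  let N : Submodule R (Fin m → R) := Submodule.pi Set.univ fun _ => Module.annihilator R X
  have hN : N ≤ LinearMap.ker φ := by
    intro a ha
    rw [LinearMap.mem_ker, Fintype.linearCombination_apply]
    refine Finset.sum_eq_zero fun j _ => ?_
    have h1 : a j ∈ Module.annihilator R X := ha j (Set.mem_univ j)
    exact Module.mem_annihilator.1 h1 _
  let ψ : ((Fin m → R) ⧸ N) →ₗ[R] X := N.liftQ φ hN
  have hψ : Function.Surjective ψ := by
    intro x
    obtain ⟨a, ha⟩ := hφ x
    exact ⟨N.mkQ a, by simpa [ψ] using ha⟩
  have h1 : Module.Finite k ((Fin m → R) ⧸ N) := by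
    let θ : (Fin m → R) →ₗ[R] (Fin m → R ⧸ Module.annihilator R X) :=
      LinearMap.pi fun j => (Submodule.mkQ _) ∘ₗ LinearMap.proj j
    have hθ : LinearMap.ker θ ≤ N := by
      intro a ha j _
      have h1 : θ a j = 0 := by rw [LinearMap.mem_ker.1 ha]; rfl
      exact (Submodule.Quotient.mk_eq_zero _).1 h1
    have h2 : Module.Finite k ((Fin m → R) ⧸ LinearMap.ker θ) := by
      have : Module.Finite k (LinearMap.range θ) := by
        have : Module.Finite k (Fin m → R ⧸ Module.annihilator R X) := inferInstance
        exact Module.Finite.of_injective ((LinearMap.range θ).subtype.restrictScalars k)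
          (LinearMap.range θ).injective_subtype
      exact Module.Finite.equiv (θ.quotKerEquivRange.symm.restrictScalars k)
    exact Module.Finite.of_surjective ((Submodule.factor hθ).restrictScalars k)
      (Submodule.factor_surjective hθ)
  exact Module.Finite.of_surjective (ψ.restrictScalars k) hψ

/-- Ext groups from finitely generated to finite-dimensional modules -/
theorem fin_fd [IsNoetherianRing R] (n : ℕ) : ∀ (V : Type) [AddCommGroup V] [Module R V]
    [Module.Finite R V] (X : Type) [AddCommGroup X] [Module R X] [Module k X]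
    [IsScalarTower k R X] [Module.Finite k X], Module.Finite k (E R V X n) := by
  induction n with
  | zero =>
    intro V _ _ _ X _ _ _ _ _
    obtain ⟨m, v, hv⟩ := Module.Finite.exists_fin (R := R) (M := V)
    choose g hg using fun ξ : E R V X 0 => hom0_surj ξ
    have gadd : ∀ ξ η, g (ξ + η) = g ξ + g η := fun ξ η => by
      apply hom0_inj
      rw [hom0_add, hg, hg, hg]
    have hpost : ∀ (c : k) (f : V →ₗ[R] X), c • hom0 f = hom0 (c • f) := by
      intro c f
      rw [Abelian.Ext.smul_eq_comp_mk₀, hom0, Abelian.Ext.mk₀_comp_mk₀, hom0]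
      congr 1
      apply ModuleCat.hom_ext
      ext v
      change algebraMap k R c • f v = c • f v
      rw [← smul_one_smul R c (f v), Algebra.algebraMap_eq_smul_one]
    have gsmul : ∀ (c : k) ξ, g (c • ξ) = c • g ξ := fun c ξ => by
      apply hom0_inj
      rw [hg, ← hpost, hg]
    let φ : E R V X 0 →ₗ[k] (Fin m → X) :=
      { toFun := fun ξ j => g ξ (v j)
        map_add' := fun ξ η => by
          funext j
          rw [gadd]; rfl
        map_smul' := fun c ξ => by
          funext j
          rw [gsmul]; rfl }
    refine Module.Finite.of_injective φ ?_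
    intro ξ η hξη
    rw [← hg ξ, ← hg η]
    congr 1
    refine LinearMap.ext_on_range hv fun j => ?_
    exact congrFun hξη j
  | succ n ih =>
    intro V _ _ _ X _ _ _ _ _
    obtain ⟨m, p, hp, hfin⟩ := exists_free_cover (A := R) V
    have hs : SES (LinearMap.ker p).subtype p := SES.ofSurj hp
    have h1 := ih (LinearMap.ker p) X
    refine Module.Finite.of_surjective (drL k hs n) ?_
    intro ξ
    obtain ⟨ζ, hζ⟩ := con3 hs ξ (E_proj _)
    exact ⟨ζ, hζ⟩

/-- Claim A -/
theorem claimA [IsNoetherianRing R] [IsNoetherianRing Rᵐᵒᵖ] (hN : NormSep k R) (h2 : Task2)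
    (h5 : Task5) (I : Ideal R) : ∀ (M : Type) [AddCommGroup M] [Module R M] [Module.Finite R M],
    I ≤ Module.annihilator R M → ∀ (V : Type) [AddCommGroup V] [Module R V] [Module k V]
      [IsScalarTower k R V] [Module.Finite k V] (n : ℕ), Module.Finite k (E R V M n) := by
  induction I using WellFoundedGT.induction with
  | ind I ih =>
  intro M _ _ _ hM
  let _ : Module k M := Module.compHom M (algebraMap k R)
  have _ : IsScalarTower k R M := ⟨fun c a y => by rw [Algebra.smul_def, mul_smul]; rfl⟩
  refine filt (k := k) (A := R) (fun X _ _ _ _ => ∀ (V : Type) [AddCommGroup V] [Module R V]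
    [Module k V] [IsScalarTower k R V] [Module.Finite k V] (n : ℕ),
      Module.Finite k (E R V X n)) ?_ ?_ M ?_
  · intro X _ _ _ _ Y _ _ _ _ Z _ _ _ _ i p h hX hZ V _ _ _ _ _ n
    exact fin_ses h n (hX V n) (hZ V n)
  · intro X _ _ _ _ hX V _ _ _ _ _ n
    have : Subsingleton (E R V X n) := by
      refine ⟨fun ξ η => ?_⟩
      have h0 : (LinearMap.id : X →ₗ[R] X) = 0 := by
        ext x; exact Subsingleton.elim _ _
      rw [← post_id ξ, ← post_id η, h0, zero_post, zero_post]
    infer_instance
  · intro X _ _ _ _ _ hX hann V _ _ _ _ _ n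
    have hVR : Module.Finite R V := Module.Finite.of_restrictScalars_finite k R V
    by_cases hfin : Module.Finite k (R ⧸ Module.annihilator R X)
    · have : Module.Finite k X := finite_of_ann X hfin
      exact fin_fd n V X
    · obtain ⟨U', _, _, g, hU', hg, hkill, hlt⟩ := step hN h2 h5 X hX hfin V n
      have hs : SES g (LinearMap.range g).mkQ := SES.ofInj hg
      have hIX : I ≤ Module.annihilator R X := by
        refine le_trans hM ?_
        intro a ha
        rw [Module.mem_annihilator] at ha ⊢
        exact hann a ha
      cases n with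
      | zero =>
        have : Subsingleton (E R V X 0) := by
          refine ⟨fun ξ η => ?_⟩
          have h0 : ∀ ζ : E R V X 0, ζ = 0 := by
            intro ζ
            obtain ⟨f, rfl⟩ := hom0_surj ζ
            have h1 := hkill (hom0 f)
            rw [post_hom0, hom0_eq_zero] at h1
            rw [hom0_eq_zero]
            ext v
            apply hg
            rw [LinearMap.zero_apply, map_zero]
            exact LinearMap.congr_fun h1 v
          rw [h0 ξ, h0 η]
        infer_instance
      | succ n =>
        have h1 := ih _ (lt_of_le_of_lt hIX hlt) (U' ⧸ LinearMap.range g) le_rfl V n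
        refine Module.Finite.of_surjective (dlL k hs n) ?_
        intro ξ
        obtain ⟨ζ, hζ⟩ := cov1 hs ξ (hkill ξ)
        exact ⟨ζ, hζ⟩

end

end Pool.Agent.Helper377_NS
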