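import Pool.Agent.Helper377_NS.A

/-!
Effaceability of the Ext groups from finite-dimensional modules in high degrees.
-/

set_option autoImplicit false

open CategoryTheory
open scoped TensorProduct

namespace Pool.Agent.Helper377_NS

open Pool.Agent.Helper202_BG

/-- prime ideals contained in a prime ideal of finite codimension -/
def Near (k : Type) {R : Type} [Field k] [Ring R] [Algebra k R] (P : Ideal R) : Prop :=
  PrimeI P ∧ ∃ Q : Ideal R, PrimeI Q ∧ P ≤ Q ∧ Module.Finite k (R ⧸ Q)

section
variable {k R : Type} [Field k] [Ring R] [Algebra k R]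

/-- Claim B -/
theorem claimB [IsNoetherianRing R] [IsNoetherianRing Rᵐᵒᵖ] (hN : NormSep k R) (h2 : Task2)
    (h5 : Task5) (hE : Ess k R) (δ : Ideal R → ℕ)
    (hδ : ∀ P P' : Ideal R, PrimeI P → Near k P' → P < P' → δ P' < δ P) (n : ℕ) :
    ∀ (M : Type) [AddCommGroup M] [Module R M] [Module.Finite R M],
      (∀ P : Ideal R, Near k P → Module.annihilator R M ≤ P → δ P < n) → Eff k R n M := by
  induction n with
  | zero =>
    intro M _ _ _ hM
    let _ : Module k M := Module.compHom M (algebraMap k R)
    have _ : IsScalarTower k R M := ⟨fun c a y => by rw [Algebra.smul_def, mul_smul]; rfl⟩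
    refine filt (k := k) (A := R) (fun X _ _ _ _ => Eff k R 0 X) ?_ ?_ M ?_
    · intro X _ _ _ _ Y _ _ _ _ Z _ _ _ _ i p h hX hZ
      exact Eff.ext h hX hZ
    · intro X _ _ _ _ hX
      exact Eff.subsingleton
    · intro X _ _ _ _ _ hX hann V _ _ _ _ _ ξ
      have hMX : Module.annihilator R M ≤ Module.annihilator R X := by
        intro a ha
        rw [Module.mem_annihilator] at ha ⊢
        exact hann a ha
      by_cases hfin : Module.Finite k (R ⧸ Module.annihilator R X)
      · exact absurd (hM _ ⟨primeI_ann X hX, _, primeI_ann X hX, le_rfl, hfin⟩ hMX)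
          (Nat.not_lt_zero _)
      · obtain ⟨U', _, _, g, hU', hg, hkill, hlt⟩ := step hN h2 h5 X hX hfin V 0
        refine ⟨V, inferInstance, inferInstance, inferInstance, inferInstance, inferInstance,
          LinearMap.id, Function.surjective_id, ?_⟩
        rw [pre_id]
        obtain ⟨f, rfl⟩ := hom0_surj ξ
        have h1 := hkill (hom0 f)
        rw [post_hom0, hom0_eq_zero] at h1
        rw [hom0_eq_zero]
        ext v
        apply hg
        rw [LinearMap.zero_apply, map_zero]
        exact LinearMap.congr_fun h1 v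
  | succ n ih =>
    intro M _ _ _ hM
    let _ : Module k M := Module.compHom M (algebraMap k R)
    have _ : IsScalarTower k R M := ⟨fun c a y => by rw [Algebra.smul_def, mul_smul]; rfl⟩
    refine filt (k := k) (A := R) (fun X _ _ _ _ => Eff k R (n + 1) X) ?_ ?_ M ?_
    · intro X _ _ _ _ Y _ _ _ _ Z _ _ _ _ i p h hX hZ
      exact Eff.ext h hX hZ
    · intro X _ _ _ _ hX
      exact Eff.subsingleton
    · intro X _ _ _ _ _ hX hann
      have hMX : Module.annihilator R M ≤ Module.annihilator R X := by
        intro a ha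
        rw [Module.mem_annihilator] at ha ⊢
        exact hann a ha
      by_cases hfin : Module.Finite k (R ⧸ Module.annihilator R X)
      · have : Module.Finite k X := finite_of_ann X hfin
        exact eff_fin hE n X
      · intro V _ _ _ _ _ ξ
        obtain ⟨U', _, _, g, hU', hg, hkill, hlt⟩ := step hN h2 h5 X hX hfin V (n + 1)
        have hs : SES g (LinearMap.range g).mkQ := SES.ofInj hg
        obtain ⟨ζ, rfl⟩ := cov1 hs ξ (hkill ξ)
        have hC : Eff k R n (U' ⧸ LinearMap.range g) := by
          refine ih _ ?_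
          intro P' hP' hle
          have hlt' : Module.annihilator R X < P' := lt_of_lt_of_le hlt hle
          have h1 := hδ _ _ (primeI_ann X hX) hP' hlt'
          have h2 : Near k (Module.annihilator R X) := by
            obtain ⟨Q, hQ, hPQ, hQf⟩ := hP'.2
            exact ⟨primeI_ann X hX, Q, hQ, hlt'.le.trans hPQ, hQf⟩
          have h3 := hM _ h2 hMX
          omega
        obtain ⟨V', _, _, _, _, _, π, hπ, h1⟩ := hC V ζ
        refine ⟨V', inferInstance, inferInstance, inferInstance, inferInstance, inferInstance, π,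
          hπ, ?_⟩
        rw [pre_dl, h1, dl_zero]

variable (k R) in
/-- chains of prime ideals ending in a prime ideal of finite codimension have bounded length -/
def BddChains : Prop :=
  ∃ d : ℕ, ∀ (n : ℕ) (P : Fin (n + 1) → Ideal R), StrictMono P → (∀ i, PrimeI (P i)) →
    Module.Finite k (R ⧸ P (Fin.last n)) → n ≤ d

theorem exists_delta (h : BddChains k R) : ∃ (δ : Ideal R → ℕ) (d : ℕ), (∀ P, δ P ≤ d) ∧
    ∀ P P' : Ideal R, PrimeI P → Near k P' → P < P' → δ P' < δ P := by
  obtain ⟨d, hd⟩ := h
  let S : Ideal R → Set ℕ := fun P => {n | ∃ c : Fin (n + 1) → Ideal R, StrictMono c ∧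
    (∀ i, PrimeI (c i)) ∧ Module.Finite k (R ⧸ c (Fin.last n)) ∧ c 0 = P}
  have hS : ∀ P, ∀ n ∈ S P, n ≤ d := by
    rintro P n ⟨c, h1, h2, h3, -⟩
    exact hd n c h1 h2 h3
  have hbdd : ∀ P, BddAbove (S P) := fun P => ⟨d, fun n hn => hS P n hn⟩
  refine ⟨fun P => sSup (S P), d, fun P => ?_, ?_⟩
  · by_cases hne : (S P).Nonempty
    · exact csSup_le hne (hS P)
    · rw [Set.not_nonempty_iff_eq_empty] at hne
      simp only [hne]
      simp
  · intro P P' hP hP' hlt
    have hne : (S P').Nonempty := by
      obtain ⟨hP1, Q, hQ, hle, hQf⟩ := hP'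
      rcases hle.eq_or_lt with h | h
      · refine ⟨0, fun _ => P', ?_, fun _ => hP1, ?_, rfl⟩
        · intro i j hij
          exact absurd hij (by omega)
        · rw [h]; exact hQf
      · refine ⟨1, ![P', Q], ?_, ?_, ?_, rfl⟩
        · rw [Fin.strictMono_iff_lt_succ]
          intro i
          fin_cases i
          exact h
        · intro i
          fin_cases i
          · exact hP1
          · exact hQ
        · exact hQf
    obtain ⟨c, h1, h2, h3, h4⟩ := Nat.sSup_mem hne (hbdd P')
    refine Nat.lt_of_succ_le (le_csSup (hbdd P) ?_)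
    refine ⟨Fin.cons P c, ?_, ?_, ?_, rfl⟩
    · rw [Fin.strictMono_iff_lt_succ]
      intro i
      rw [Fin.cons_succ]
      refine Fin.cases ?_ (fun j => ?_) i
      · rw [Fin.castSucc_zero, Fin.cons_zero, h4]
        exact hlt
      · rw [← Fin.succ_castSucc, Fin.cons_succ]
        exact h1 (Fin.castSucc_lt_succ)
    · intro i
      refine Fin.cases hP (fun j => ?_) i
      exact h2 j
    · rw [← Fin.succ_last, Fin.cons_succ]
      exact h3

end

end Pool.Agent.Helper377_NS
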