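import Pool.Agent.Helper202_BG.P3d

/-!
Noetherian Hopf algebras in which the ideals of finite codimension of the infinite-dimensional
prime factor rings contain normal elements: definitions and the statements of the tasks.

`E A V X n` is the group `Ext^n_A(V, X)`, `post g` and `pre f` are composition with module
homomorphisms, see `Helper202_BG.Defs` and `Helper202_BG.ExtTools`.
-/

set_option autoImplicit false

open CategoryTheory
open scoped TensorProduct

namespace Pool.Agent.Helper377_NS

open Pool.Agent.Helper202_BG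

/-- `M` as a module over `R` through the ring homomorphism `f : R → S` -/
def Vw {R S : Type} [Ring R] [Ring S] (_ : R →+* S) (M : Type) : Type := M

instance {R S : Type} [Ring R] [Ring S] (f : R →+* S) (M : Type) [AddCommGroup M] :
    AddCommGroup (Vw f M) := inferInstanceAs (AddCommGroup M)

instance {R S : Type} [Ring R] [Ring S] (f : R →+* S) (M : Type) [AddCommGroup M] [Module S M] :
    Module R (Vw f M) := Module.compHom M f

/-- multiplication by `w`, where `w * s = τ s * w`, as a homomorphism `M → M^τ` of `R`-modules -/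
def zt {R S : Type} [Ring R] [Ring S] (f : R →+* S) (w : S) (τ : S →+* S)
    (hw : ∀ s, w * s = τ s * w) (M : Type) [AddCommGroup M] [Module S M] :
    Vw f M →ₗ[R] Vw (τ.comp f) M where
  toFun m := (show Vw (τ.comp f) M from (w • (show M from m) : M))
  map_add' x y := smul_add w (show M from x) (show M from y)
  map_smul' r m := by
    change w • (f r • (show M from m)) = τ (f r) • (w • (show M from m))
    rw [← mul_smul, hw, mul_smul]

/-- the `k`-dual of `S` as a left `S`-module: `(s • φ) b = φ (b * s)` -/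
def DS (k S : Type) [Field k] [Ring S] [Algebra k S] : Type := S →ₗ[k] k

section
variable {k S : Type} [Field k] [Ring S] [Algebra k S]

noncomputable instance : AddCommGroup (DS k S) := inferInstanceAs (AddCommGroup (S →ₗ[k] k))

/-- the underlying functional -/
def DS.ap (φ : DS k S) : S →ₗ[k] k := φ

theorem DS.ext {φ ψ : DS k S} (h : ∀ b, φ.ap b = ψ.ap b) : φ = ψ := LinearMap.ext h

theorem DS.add_ap (φ ψ : DS k S) (b : S) : (φ + ψ).ap b = φ.ap b + ψ.ap b := rfl

noncomputable instance : Module S (DS k S) where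
  smul s φ := (show DS k S from φ.ap ∘ₗ LinearMap.mulRight k s)
  one_smul φ := DS.ext fun b => by
    change φ.ap (b * 1) = φ.ap b
    rw [mul_one]
  mul_smul s t φ := DS.ext fun b => by
    change φ.ap (b * (s * t)) = φ.ap (b * s * t)
    rw [mul_assoc]
  smul_zero s := rfl
  smul_add s φ ψ := rfl
  add_smul s t φ := DS.ext fun b => by
    change φ.ap (b * (s + t)) = φ.ap (b * s) + φ.ap (b * t)
    rw [mul_add, map_add]
  zero_smul φ := DS.ext fun b => by
    change φ.ap (b * 0) = 0
    rw [mul_zero, map_zero]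

theorem DS.smul_ap (s : S) (φ : DS k S) (b : S) : (s • φ).ap b = φ.ap (b * s) := rfl

end

/-- the endomorphism of the dual of `S` induced by left multiplication: `(rho a φ) b = φ (a * b)` -/
noncomputable def rho {k R S : Type} [Field k] [Ring R] [Ring S] [Algebra k S] (f : R →+* S)
    (a : S) : Vw f (DS k S) →ₗ[R] Vw f (DS k S) where
  toFun φ := (show Vw f (DS k S) from
    (show DS k S from DS.ap (show DS k S from φ) ∘ₗ LinearMap.mulLeft k a))
  map_add' x y := rfl
  map_smul' r φ := by
    refine DS.ext (k := k) (S := S) fun b => ?_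
    change DS.ap (show DS k S from φ) (a * b * f r) = DS.ap (show DS k S from φ) (a * (b * f r))
    rw [mul_assoc]

/-- For every prime ideal `P` of infinite codimension, every two-sided ideal `J` of finite
codimension containing `P` contains an element outside `P` which is normal modulo `P`. -/
def NormSep (k R : Type) [Field k] [Ring R] [Algebra k R] : Prop :=
  ∀ P J : Ideal R, PrimeI P → J.IsTwoSided → P ≤ J → ¬ Module.Finite k (R ⧸ P) →
    Module.Finite k (R ⧸ J) →
      ∃ z ∈ J, z ∉ P ∧ (∀ r, ∃ s, z * r - s * z ∈ P) ∧ ∀ r, ∃ s, r * z - z * s ∈ P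

/-! ### Statements of tasks -/

/-- Task 1. Ext with values in the dual of a factor ring. -/
def Task1 : Prop :=
  ∀ (k R S : Type) [Field k] [Ring R] [Algebra k R] [Ring S] [Algebra k S]
    [IsNoetherianRing Rᵐᵒᵖ] (f : R →ₐ[k] S), Function.Surjective f →
    ∀ (V : Type) [AddCommGroup V] [Module R V] [Module k V] [IsScalarTower k R V]
      [Module.Finite k V] (i : ℕ), Module.Finite k (E R V (Vw f.toRingHom (DS k S)) i)

/-- Task 2a. The annihilator of the Ext groups with values in the dual of `S`. -/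
def Task2a : Prop :=
  ∀ (k R S : Type) [Field k] [Ring R] [Algebra k R] [Ring S] [Algebra k S] (f : R →ₐ[k] S)
    (V : Type) [AddCommGroup V] [Module R V] (i : ℕ),
    (∀ j ≤ i, Module.Finite k (E R V (Vw f.toRingHom (DS k S)) j)) →
      ∃ J : Ideal S, J.IsTwoSided ∧ Module.Finite k (S ⧸ J) ∧
        ∀ a ∈ J, ∀ j ≤ i, ∀ ξ : E R V (Vw f.toRingHom (DS k S)) j,
          post (rho f.toRingHom a) ξ = 0

/-- Task 2b. From the dual of `S` to all modules over `S`. -/
def Task2b : Prop :=
  ∀ (k R S : Type) [Field k] [Ring R] [Algebra k R] [Ring S] [Algebra k S] (f : R →ₐ[k] S)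
    (V : Type) [AddCommGroup V] [Module R V] (z : S) (σ : S ≃ₐ[k] S),
    (∀ s, z * s = σ s * z) → ∀ i : ℕ,
      (∀ j ≤ i, ∀ ξ : E R V (Vw f.toRingHom (DS k S)) j, post (rho f.toRingHom z) ξ = 0) →
      ∀ (w : S) (τ : S →+* S) (hw : ∀ s, w * s = τ s * w), w = z ^ (i + 1) →
        (∀ s, τ s = (σ ^ (i + 1)) s) →
        ∀ (M : Type) [AddCommGroup M] [Module S M] (ξ : E R V (Vw f.toRingHom M) i),
          post (zt f.toRingHom w τ hw M) ξ = 0

/-- Task 2, a consequence of Tasks 1, 2a, 2b. -/
def Task2 : Prop :=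
  ∀ (k R S : Type) [Field k] [Ring R] [Algebra k R] [Ring S] [Algebra k S]
    [IsNoetherianRing Rᵐᵒᵖ] (f : R →ₐ[k] S), Function.Surjective f →
    ∀ (V : Type) [AddCommGroup V] [Module R V] [Module k V] [IsScalarTower k R V]
      [Module.Finite k V] (i : ℕ),
      ∃ J : Ideal S, J.IsTwoSided ∧ Module.Finite k (S ⧸ J) ∧
        ∀ (z : S) (σ : S ≃ₐ[k] S), z ∈ J → (∀ s, z * s = σ s * z) →
          ∀ (w : S) (τ : S →+* S) (hw : ∀ s, w * s = τ s * w), w = z ^ (i + 1) →
            (∀ s, τ s = (σ ^ (i + 1)) s) →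
            ∀ (M : Type) [AddCommGroup M] [Module S M] (ξ : E R V (Vw f.toRingHom M) i),
              post (zt f.toRingHom w τ hw M) ξ = 0

theorem task2_of (h1 : Task1) (h2a : Task2a) (h2b : Task2b) : Task2 := by
  intro k R S _ _ _ _ _ _ f hf V _ _ _ _ _ i
  obtain ⟨J, hJ, hJf, hJ'⟩ := h2a k R S f V i (fun j _ => h1 k R S f hf V j)
  refine ⟨J, hJ, hJf, ?_⟩
  intro z σ hz hzσ
  exact h2b k R S f V z σ hzσ i (hJ' z hz)

/-- Task 3. Finitely generated essential extensions of finite-dimensional modules. -/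
def Task3 : Prop :=
  ∀ (k R : Type) [Field k] [Ring R] [Algebra k R] [IsNoetherianRing R], NormSep k R → Ess k R

/-- Task 4. Noetherian algebras with a polynomial identity. -/
def Task4 : Prop :=
  ∀ (k R : Type) [Field k] [Ring R] [Algebra k R] [IsNoetherianRing R] (d : ℕ),
    MLPI k R d → NormSep k R

/-- Task 5. Normal elements of prime rings. -/
def Task5 : Prop :=
  ∀ (k R : Type) [Field k] [Ring R] [Algebra k R] (P : Ideal R) [P.IsTwoSided], PrimeI P →
    ∀ z : R, z ∉ P → (∀ r, ∃ s, z * r - s * z ∈ P) → (∀ r, ∃ s, r * z - z * s ∈ P) →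
      ∃ σ : (R ⧸ P) ≃ₐ[k] (R ⧸ P), ∀ s : R ⧸ P,
        (Ideal.Quotient.mk P z) * s = σ s * (Ideal.Quotient.mk P z)

end Pool.Agent.Helper377_NS
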