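import Pool.Agent.Helper377_NS.Defs

/-!
JOB NS-1 (MP_112773_al, helper377).  Ext with values in the dual of a factor ring is finite-dimensional.
-/

set_option autoImplicit false

open CategoryTheory
open scoped TensorProduct

namespace Pool.Agent.Helper377_NS

open Pool.Agent.Helper202_BG

section h508Dual

/-- the `k`-dual of a right `R`-module as a left `R`-module -/
def H508D (k R B : Type) [Field k] [Ring R] [Algebra k R] [AddCommGroup B] [Module Rᵐᵒᵖ B]
    [Module k B] [IsScalarTower k Rᵐᵒᵖ B] : Type := B →ₗ[k] k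

variable {k R B : Type} [Field k] [Ring R] [Algebra k R] [AddCommGroup B] [Module Rᵐᵒᵖ B]
    [Module k B] [IsScalarTower k Rᵐᵒᵖ B]

noncomputable instance : AddCommGroup (H508D k R B) := inferInstanceAs (AddCommGroup (B →ₗ[k] k))

/-- the underlying functional -/
def H508D.ap (φ : H508D k R B) : B →ₗ[k] k := φ

/-- a functional as an element of the dual -/
def H508D.of (φ : B →ₗ[k] k) : H508D k R B := φ

theorem H508D.ap_of (φ : B →ₗ[k] k) : (H508D.of φ : H508D k R B).ap = φ := rfl

theorem H508D.ext {φ ψ : H508D k R B} (h : ∀ b, φ.ap b = ψ.ap b) : φ = ψ := LinearMap.ext h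

theorem H508D.add_ap (φ ψ : H508D k R B) (b : B) : (φ + ψ).ap b = φ.ap b + ψ.ap b := rfl

theorem H508D.zero_ap (b : B) : (0 : H508D k R B).ap b = 0 := rfl

/-- the action of an element on the right module -/
def h508r (r : R) : B →ₗ[k] B where
  toFun b := MulOpposite.op r • b
  map_add' := smul_add _
  map_smul' _ _ := smul_comm _ _ _

noncomputable instance : Module R (H508D k R B) where
  smul s φ := H508D.of (φ.ap ∘ₗ h508r s)
  one_smul φ := H508D.ext fun b => by
    change φ.ap (MulOpposite.op (1 : R) • b) = φ.ap b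
    rw [MulOpposite.op_one, one_smul]
  mul_smul s t φ := H508D.ext fun b => by
    change φ.ap (MulOpposite.op (s * t) • b) = φ.ap (MulOpposite.op t • MulOpposite.op s • b)
    rw [MulOpposite.op_mul, mul_smul]
  smul_zero s := rfl
  smul_add s φ ψ := rfl
  add_smul s t φ := H508D.ext fun b => by
    change φ.ap (MulOpposite.op (s + t) • b) =
      φ.ap (MulOpposite.op s • b) + φ.ap (MulOpposite.op t • b)
    rw [MulOpposite.op_add, add_smul, map_add]
  zero_smul φ := H508D.ext fun b => by
    change φ.ap (MulOpposite.op (0 : R) • b) = 0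
    rw [MulOpposite.op_zero, zero_smul, map_zero]

theorem H508D.smul_ap (s : R) (φ : H508D k R B) (b : B) :
    (s • φ).ap b = φ.ap (MulOpposite.op s • b) := rfl

theorem H508D.algebraMap_smul_ap (c : k) (φ : H508D k R B) (b : B) :
    (algebraMap k R c • φ).ap b = c * φ.ap b := by
  rw [H508D.smul_ap, ← MulOpposite.algebraMap_apply, algebraMap_smul, map_smul, smul_eq_mul]

/-- dual of a homomorphism -/
noncomputable def h508t {B' : Type} [AddCommGroup B'] [Module Rᵐᵒᵖ B'] [Module k B']
    [IsScalarTower k Rᵐᵒᵖ B'] (p : B →ₗ[Rᵐᵒᵖ] B') : H508D k R B' →ₗ[R] H508D k R B where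
  toFun φ := H508D.of (φ.ap ∘ₗ p.restrictScalars k)
  map_add' x y := rfl
  map_smul' r φ := by
    refine H508D.ext fun b => ?_
    change φ.ap (MulOpposite.op r • p b) = φ.ap (p (MulOpposite.op r • b))
    rw [map_smul p]

theorem h508t_ap {B' : Type} [AddCommGroup B'] [Module Rᵐᵒᵖ B'] [Module k B']
    [IsScalarTower k Rᵐᵒᵖ B'] (p : B →ₗ[Rᵐᵒᵖ] B') (φ : H508D k R B') (b : B) :
    (h508t p φ).ap b = φ.ap (p b) := rfl

/-- the dual of the kernel sequence -/
theorem h508_SES {B' : Type} [AddCommGroup B'] [Module Rᵐᵒᵖ B'] [Module k B']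
    [IsScalarTower k Rᵐᵒᵖ B'] (p : B →ₗ[Rᵐᵒᵖ] B') (hp : Function.Surjective p) :
    SES (h508t (k := k) (R := R) p) (h508t (k := k) (R := R) (LinearMap.ker p).subtype) where
  inj := by
    intro φ ψ h
    refine H508D.ext fun b => ?_
    obtain ⟨x, rfl⟩ := hp b
    have := congrArg (fun χ => H508D.ap χ x) h
    exact this
  surj := by
    intro φ
    obtain ⟨g, hg⟩ := LinearMap.exists_extend
      (p := (LinearMap.ker p).restrictScalars k) (K := k) (V := B) (V' := k) (φ.ap)
    refine ⟨H508D.of g, H508D.ext fun b => ?_⟩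
    have := congrArg (fun χ => χ b) hg
    exact this
  exact := by
    intro φ
    constructor
    · intro h
      obtain ⟨s, hs⟩ := LinearMap.exists_rightInverse_of_surjective (p.restrictScalars k)
        (LinearMap.range_eq_top.2 hp)
      refine ⟨H508D.of (φ.ap ∘ₗ s), H508D.ext fun b => ?_⟩
      change φ.ap (s (p b)) = φ.ap b
      have h1 : p (s (p b) - b) = 0 := by
        rw [map_sub, sub_eq_zero]
        exact congrArg (fun χ => χ (p b)) hs
      have h2 := congrArg (fun χ => H508D.ap χ ⟨s (p b) - b, h1⟩) h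
      have h3 : φ.ap (s (p b) - b) = 0 := h2
      rw [map_sub, sub_eq_zero] at h3
      exact h3
    · rintro ⟨ψ, rfl⟩
      refine H508D.ext fun b => ?_
      change ψ.ap (p b) = 0
      rw [(LinearMap.mem_ker.1 b.2), map_zero]

end h508Dual

section h508Inj

variable (k R : Type) [Field k] [Ring R] [Algebra k R]

/-- duals of free modules are injective -/
theorem h508_baer (m : ℕ) : Module.Baer R (H508D k R (Fin m → Rᵐᵒᵖ)) := by
  intro I g
  let gj : Fin m → (I.restrictScalars k) →ₗ[k] k := fun j =>
    { toFun := fun x => (g ⟨x.1, x.2⟩).ap (Pi.single j 1)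
      map_add' := fun x y => by
        rw [← H508D.add_ap, ← map_add]; rfl
      map_smul' := fun c x => by
        have h1 : (⟨(c • x).1, (c • x).2⟩ : I) = algebraMap k R c • ⟨x.1, x.2⟩ := by
          ext
          change c • (x : R) = algebraMap k R c • (x : R)
          rw [algebraMap_smul]
        rw [h1, map_smul, H508D.algebraMap_smul_ap]; rfl }
  have hG : ∀ j, ∃ G : R →ₗ[k] k, ∀ x (hx : x ∈ I), G x = (g ⟨x, hx⟩).ap (Pi.single j 1) := by
    intro j
    obtain ⟨G, hG⟩ := LinearMap.exists_extend (gj j)
    exact ⟨G, fun x hx => congrArg (fun χ => χ ⟨x, hx⟩) hG⟩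
  choose G hG using hG
  let g' : R →ₗ[R] H508D k R (Fin m → Rᵐᵒᵖ) :=
    { toFun := fun y => H508D.of
        { toFun := fun ρ => ∑ j, G j ((ρ j).unop * y)
          map_add' := fun ρ ρ' => by
            rw [← Finset.sum_add_distrib]
            refine Finset.sum_congr rfl fun j _ => ?_
            rw [Pi.add_apply, MulOpposite.unop_add, add_mul, map_add]
          map_smul' := fun c ρ => by
            rw [RingHom.id_apply, Finset.smul_sum]
            refine Finset.sum_congr rfl fun j _ => ?_
            rw [Pi.smul_apply, MulOpposite.unop_smul, smul_mul_assoc, map_smul] }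
      map_add' := fun y y' => by
        refine H508D.ext fun ρ => ?_
        rw [H508D.add_ap, H508D.ap_of, H508D.ap_of, H508D.ap_of]
        change ∑ j, G j ((ρ j).unop * (y + y')) = ∑ j, G j ((ρ j).unop * y) +
          ∑ j, G j ((ρ j).unop * y')
        rw [← Finset.sum_add_distrib]
        refine Finset.sum_congr rfl fun j _ => ?_
        rw [mul_add, map_add]
      map_smul' := fun r y => by
        refine H508D.ext fun ρ => ?_
        rw [RingHom.id_apply, H508D.smul_ap, H508D.ap_of, H508D.ap_of]
        change ∑ j, G j ((ρ j).unop * (r * y)) =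
          ∑ j, G j ((MulOpposite.op r * ρ j).unop * y)
        refine Finset.sum_congr rfl fun j _ => ?_
        rw [MulOpposite.unop_mul, MulOpposite.unop_op, mul_assoc] }
  refine ⟨g', fun x hx => H508D.ext fun ρ => ?_⟩
  change ∑ j, G j ((ρ j).unop * x) = (g ⟨x, hx⟩).ap ρ
  have h1 : ρ = ∑ j, ρ j • (Pi.single j 1 : Fin m → Rᵐᵒᵖ) := by
    funext i
    rw [Finset.sum_apply, Finset.sum_eq_single i]
    · simp
    · intro j _ hj
      simp [hj.symm]
    · intro h; exact absurd (Finset.mem_univ _) h
  conv_rhs => rw [h1, map_sum]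
  refine Finset.sum_congr rfl fun j _ => ?_
  rw [hG j _ (I.mul_mem_left _ hx)]
  have h2 : (⟨(ρ j).unop * x, I.mul_mem_left _ hx⟩ : I) = (ρ j).unop • ⟨x, hx⟩ := rfl
  rw [h2, map_smul, H508D.smul_ap, MulOpposite.op_unop]

end h508Inj

section h508Fin

variable {k R : Type} [Field k] [Ring R] [Algebra k R]

/-- degree zero -/
theorem h508_zero (V : Type) [AddCommGroup V] [Module R V] [Module k V] [IsScalarTower k R V]
    [Module.Finite k V] (B : Type) [AddCommGroup B] [Module Rᵐᵒᵖ B]
    [Module k B] [IsScalarTower k Rᵐᵒᵖ B] [Module.Finite Rᵐᵒᵖ B] :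
    Module.Finite k (E R V (H508D k R B) 0) := by
  obtain ⟨n, v, hv⟩ := Module.Finite.exists_fin (R := k) (M := V)
  obtain ⟨m, b, hb⟩ := Module.Finite.exists_fin (R := Rᵐᵒᵖ) (M := B)
  let ev : (ModuleCat.of R V ⟶ ModuleCat.of R (H508D k R B)) →ₗ[k] (Fin n × Fin m → k) :=
    { toFun := fun g q => H508D.ap (g.hom (v q.1)) (b q.2)
      map_add' := fun g g' => rfl
      map_smul' := fun c g => by
        funext q
        exact H508D.algebraMap_smul_ap c (g.hom (v q.1) : H508D k R B) (b q.2) }
  have hev : Function.Injective ev := by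
    rw [injective_iff_map_eq_zero]
    intro g hg
    obtain ⟨gh, rfl⟩ : ∃ gh : V →ₗ[R] H508D k R B, ModuleCat.ofHom gh = g := ⟨g.hom, rfl⟩
    have h0 : ∀ i j, (gh (v i)).ap (b j) = 0 := fun i j => congrFun hg (i, j)
    have h1 : ∀ (x : V) j, (gh x).ap (b j) = 0 := by
      intro x j
      have hx : x ∈ Submodule.span k (Set.range v) := by rw [hv]; exact Submodule.mem_top
      induction hx using Submodule.span_induction with
      | mem x h => obtain ⟨i, rfl⟩ := h; exact h0 i j
      | zero => rw [map_zero]; rfl
      | add x y _ _ hx hy => rw [map_add, H508D.add_ap, hx, hy, add_zero]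
      | smul c x _ hx =>
        have : c • x = algebraMap k R c • x := (algebraMap_smul R c x).symm
        rw [this, map_smul, H508D.algebraMap_smul_ap, hx, mul_zero]
    have h2 : ∀ (y : B) (x : V), (gh x).ap y = 0 := by
      intro y
      have hy : y ∈ Submodule.span Rᵐᵒᵖ (Set.range b) := by rw [hb]; exact Submodule.mem_top
      induction hy using Submodule.span_induction with
      | mem y h => obtain ⟨j, rfl⟩ := h; exact fun x => h1 x j
      | zero => intro x; rw [map_zero]
      | add y y' _ _ hy hy' => intro x; rw [map_add, hy, hy', add_zero]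
      | smul c y _ hy =>
        intro x
        have h3 := H508D.smul_ap c.unop (gh x) y
        rw [MulOpposite.op_unop] at h3
        rw [← h3, ← map_smul]
        exact hy _
    have h3 : gh = 0 := LinearMap.ext fun x => H508D.ext fun y => h2 y x
    rw [h3, ModuleCat.ofHom_zero]
  have h1 : Module.Finite k (ModuleCat.of R V ⟶ ModuleCat.of R (H508D k R B)) :=
    Module.Finite.of_injective ev hev
  exact Module.Finite.equiv (Abelian.Ext.linearEquiv₀ (R := k)
    (X := ModuleCat.of R V) (Y := ModuleCat.of R (H508D k R B))).symm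

/-- all degrees -/
theorem h508_fin [IsNoetherianRing Rᵐᵒᵖ] (V : Type) [AddCommGroup V] [Module R V] [Module k V]
    [IsScalarTower k R V] [Module.Finite k V] (i : ℕ) : ∀ (B : Type) [AddCommGroup B]
    [Module Rᵐᵒᵖ B] [Module k B] [IsScalarTower k Rᵐᵒᵖ B] [Module.Finite Rᵐᵒᵖ B],
    Module.Finite k (E R V (H508D k R B) i) := by
  induction i with
  | zero => intro B _ _ _ _ _; exact h508_zero V B
  | succ i ih =>
    intro B _ _ _ _ _
    obtain ⟨m, p, hp⟩ := Module.Finite.exists_fin' Rᵐᵒᵖ B
    have hs := h508_SES (k := k) (R := R) p hp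
    have h1 := ih (LinearMap.ker p)
    let D : E R V (H508D k R (LinearMap.ker p)) i →ₗ[k] E R V (H508D k R B) (i + 1) :=
      { toFun := fun ζ => dl hs ζ
        map_add' := fun x y => dl_add hs x y
        map_smul' := fun c x => by
          rw [dl, dl, Abelian.Ext.smul_comp]; rfl }
    refine Module.Finite.of_surjective D fun ξ => ?_
    exact cov1 hs ξ (E_injective (h508_baer k R m) _)

/-- transport along isomorphisms -/
theorem h508_transport (V X X' : Type) [AddCommGroup V] [Module R V] [AddCommGroup X]
    [Module R X] [AddCommGroup X'] [Module R X'] (e : X ≃ₗ[R] X') (i : ℕ)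
    (h : Module.Finite k (E R V X i)) : Module.Finite k (E R V X' i) := by
  let D : E R V X i →ₗ[k] E R V X' i :=
    { toFun := fun ζ => post e.toLinearMap ζ
      map_add' := fun x y => post_add _ x y
      map_smul' := fun c x => by
        rw [post, post, Abelian.Ext.smul_comp]; rfl }
  refine Module.Finite.of_surjective D fun ξ => ⟨post e.symm.toLinearMap ξ, ?_⟩
  change post e.toLinearMap (post e.symm.toLinearMap ξ) = ξ
  rw [← post_comp]
  have : e.toLinearMap ∘ₗ e.symm.toLinearMap = LinearMap.id := by
    ext x; simp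
  rw [this, post_id]

/-- `S` as a right module over `R` -/
def H508S {R S : Type} [Ring R] [Ring S] (_ : R →+* S) : Type := S

instance {S : Type} [Ring S] (f : R →+* S) : AddCommGroup (H508S f) :=
  inferInstanceAs (AddCommGroup S)

instance {S : Type} [Ring S] [Algebra k S] (f : R →+* S) : Module k (H508S f) :=
  inferInstanceAs (Module k S)

instance {S : Type} [Ring S] (f : R →+* S) : Module Rᵐᵒᵖ (H508S f) where
  smul r b := (show H508S f from ((show S from b) * f r.unop : S))
  one_smul b := by
    change (show S from b) * f 1 = b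
    rw [map_one, mul_one]
  mul_smul r s b := by
    change (show S from b) * f (s.unop * r.unop) = (show S from b) * f s.unop * f r.unop
    rw [map_mul, mul_assoc]
  smul_zero r := by
    change (0 : S) * f r.unop = 0
    rw [zero_mul]
  smul_add r b b' := by
    change ((show S from b) + (show S from b')) * f r.unop = _
    rw [add_mul]; rfl
  add_smul r s b := by
    change (show S from b) * f (r.unop + s.unop) = _
    rw [map_add, mul_add]; rfl
  zero_smul b := by
    change (show S from b) * f 0 = (0 : S)
    rw [map_zero, mul_zero]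

instance {S : Type} [Ring S] [Algebra k S] (f : R →ₐ[k] S) :
    IsScalarTower k Rᵐᵒᵖ (H508S f.toRingHom) where
  smul_assoc c r b := by
    change (show S from b) * f (c • r.unop) = c • ((show S from b) * f r.unop)
    rw [map_smul, mul_smul_comm]

end h508Fin

theorem task1 : Task1 := by
  intro k R S _ _ _ _ _ _ f hf V _ _ _ _ _ i
  have h1 : Module.Finite Rᵐᵒᵖ (H508S f.toRingHom) := by
    refine ⟨⟨{(show H508S f.toRingHom from (1 : S))}, ?_⟩⟩
    rw [eq_top_iff]
    intro x _
    obtain ⟨r, hr⟩ := hf (show S from x)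
    rw [Finset.coe_singleton, Submodule.mem_span_singleton]
    refine ⟨MulOpposite.op r, ?_⟩
    change (1 : S) * f r = x
    rw [one_mul]; exact hr
  have h2 := h508_fin (k := k) (R := R) V i (H508S f.toRingHom)
  refine h508_transport V (H508D k R (H508S f.toRingHom)) (Vw f.toRingHom (DS k S)) ?_ i h2
  exact
    { toFun := fun φ => (show S →ₗ[k] k from φ)
      invFun := fun φ => (show S →ₗ[k] k from φ)
      left_inv := fun _ => rfl
      right_inv := fun _ => rfl
      map_add' := fun _ _ => rfl
      map_smul' := fun _ _ => rfl }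

end Pool.Agent.Helper377_NS
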