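import Pool.Agent.Helper377_NS.Defs

set_option autoImplicit false

open CategoryTheory
open scoped TensorProduct

namespace Pool.Agent.Helper377_NS

open Pool.Agent.Helper202_BG

section T2a

variable {k R S : Type} [Field k] [Ring R] [Algebra k R]
variable {V : Type} [AddCommGroup V] [Module R V] {X : Type} [AddCommGroup X] [Module R X]
  {X' : Type} [AddCommGroup X'] [Module R X']

theorem t2a_post_smul {n : ℕ} (g : X →ₗ[R] X') (c : k) (ξ : E R V X n) :
    post g (c • ξ) = c • post g ξ := by
  unfold post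
  exact Abelian.Ext.smul_comp _ _ _ _

theorem t2a_smul_post {n : ℕ} (g g' : X →ₗ[R] X') (c : k)
    (h : ∀ x, g' x = algebraMap k R c • g x) (ξ : E R V X n) :
    post g' ξ = c • post g ξ := by
  have h1 : ModuleCat.ofHom g' = c • ModuleCat.ofHom g := by
    ext x
    exact h x
  unfold post
  rw [h1, Abelian.Ext.mk₀_smul, Abelian.Ext.comp_smul]

variable [Ring S] [Algebra k S] (f : R →ₐ[k] S)

/-- post-composition with `rho a` as a `k`-linear endomorphism -/
noncomputable def t2aP (a : S) (V : Type) [AddCommGroup V] [Module R V] (n : ℕ) :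
    Module.End k (E R V (Vw f.toRingHom (DS k S)) n) where
  toFun ξ := post (rho f.toRingHom a) ξ
  map_add' x y := post_add _ x y
  map_smul' c x := t2a_post_smul _ c x

theorem t2a_rho_add (a b : S) : rho (k := k) f.toRingHom (a + b) =
    rho f.toRingHom a + rho f.toRingHom b := by
  refine LinearMap.ext fun φ => DS.ext (k := k) (S := S) fun x => ?_
  change DS.ap (show DS k S from φ) ((a + b) * x) =
    DS.ap (show DS k S from φ) (a * x) + DS.ap (show DS k S from φ) (b * x)
  rw [add_mul, map_add]

theorem t2a_rho_mul (a b : S) : rho (k := k) f.toRingHom (a * b) =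
    rho f.toRingHom b ∘ₗ rho f.toRingHom a := by
  refine LinearMap.ext fun φ => DS.ext (k := k) (S := S) fun x => ?_
  change DS.ap (show DS k S from φ) ((a * b) * x) =
    DS.ap (show DS k S from φ) (a * (b * x))
  rw [mul_assoc]

theorem t2a_rho_smul (c : k) (a : S) (φ : Vw f.toRingHom (DS k S)) :
    rho (k := k) f.toRingHom (c • a) φ = algebraMap k R c • rho f.toRingHom a φ := by
  refine DS.ext (k := k) (S := S) fun x => ?_
  change DS.ap (show DS k S from φ) ((c • a) * x) =
    DS.ap (show DS k S from φ) (a * (x * f (algebraMap k R c)))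
  rw [AlgHom.commutes, ← Algebra.commutes c x, ← Algebra.smul_def, smul_mul_assoc, mul_smul_comm]

/-- the map to the endomorphisms of the Ext groups -/
noncomputable def t2aPhi (V : Type) [AddCommGroup V] [Module R V] (i : ℕ) :
    S →ₗ[k] (∀ j : Fin (i + 1), Module.End k (E R V (Vw f.toRingHom (DS k S)) j)) where
  toFun a j := t2aP f a V j
  map_add' a b := by
    funext j
    refine LinearMap.ext fun ξ => ?_
    change post (rho f.toRingHom (a + b)) ξ = post (rho f.toRingHom a) ξ + post (rho f.toRingHom b) ξ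
    rw [t2a_rho_add, add_post]
  map_smul' c a := by
    funext j
    refine LinearMap.ext fun ξ => ?_
    change post (rho f.toRingHom (c • a)) ξ = c • post (rho f.toRingHom a) ξ
    exact t2a_smul_post _ _ c (fun x => t2a_rho_smul f c a x) ξ

theorem t2a_mem (V : Type) [AddCommGroup V] [Module R V] (i : ℕ) (a : S) :
    a ∈ LinearMap.ker (t2aPhi f V i) ↔
      ∀ j ≤ i, ∀ ξ : E R V (Vw f.toRingHom (DS k S)) j, post (rho f.toRingHom a) ξ = 0 := by
  constructor
  · intro h j hj ξ
    have h1 := congrFun (LinearMap.mem_ker.1 h) ⟨j, Nat.lt_succ_of_le hj⟩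
    exact LinearMap.congr_fun h1 ξ
  · intro h
    refine LinearMap.mem_ker.2 ?_
    funext j
    refine LinearMap.ext fun ξ => ?_
    exact h j (Nat.le_of_lt_succ j.2) ξ

/-- the ideal -/
def t2aJ (V : Type) [AddCommGroup V] [Module R V] (i : ℕ) : Ideal S where
  carrier := {a | ∀ j ≤ i, ∀ ξ : E R V (Vw f.toRingHom (DS k S)) j, post (rho f.toRingHom a) ξ = 0}
  add_mem' {a b} ha hb j hj ξ := by
    rw [t2a_rho_add, add_post, ha j hj, hb j hj, add_zero]
  zero_mem' := (t2a_mem f V i 0).1 (Submodule.zero_mem _)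
  smul_mem' b a ha j hj ξ := by
    rw [smul_eq_mul, t2a_rho_mul, post_comp, ha j hj]

end T2a

theorem task2a : Task2a := by
  intro k R S _ _ _ _ _ f V _ _ i hfin
  refine ⟨t2aJ f V i, ⟨?_⟩, ?_, fun a ha => ha⟩
  · intro a b ha j hj ξ
    rw [t2a_rho_mul, post_comp, ha j hj, post_zero]
  · have hfin' : ∀ j : Fin (i + 1), Module.Finite k (E R V (Vw f.toRingHom (DS k S)) j) :=
      fun j => hfin j (Nat.le_of_lt_succ j.2)
    have h1 : Module.Finite k
        (∀ j : Fin (i + 1), Module.End k (E R V (Vw f.toRingHom (DS k S)) j)) := inferInstance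
    have h2 : Module.Finite k (LinearMap.range (t2aPhi f V i)) := inferInstance
    have h3 : Module.Finite k (S ⧸ LinearMap.ker (t2aPhi f V i)) :=
      Module.Finite.equiv (LinearMap.quotKerEquivRange (t2aPhi f V i)).symm
    have hle : LinearMap.ker (t2aPhi f V i) ≤
        LinearMap.ker ((Submodule.mkQ (t2aJ f V i)).restrictScalars k) := by
      intro a ha
      rw [LinearMap.mem_ker]
      change Submodule.mkQ (t2aJ f V i) a = 0
      rw [Submodule.mkQ_apply, Submodule.Quotient.mk_eq_zero]
      exact (t2a_mem f V i a).1 ha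
    refine Module.Finite.of_surjective
      ((LinearMap.ker (t2aPhi f V i)).liftQ ((Submodule.mkQ (t2aJ f V i)).restrictScalars k) hle) ?_
    intro y
    obtain ⟨a, rfl⟩ := Submodule.mkQ_surjective (t2aJ f V i) y
    exact ⟨Submodule.Quotient.mk a, by rw [Submodule.liftQ_apply]; rfl⟩

end Pool.Agent.Helper377_NS
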