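import Pool.Agent.Helper377_NS.Defs

/-!
JOB NS-2b (MP_112773_al, helper377).  From the dual of `S` to all modules over `S`.
-/

set_option autoImplicit false

open CategoryTheory
open scoped TensorProduct

namespace Pool.Agent.Helper377_NS

open Pool.Agent.Helper202_BG

namespace T2b

section mapV

variable {R S : Type} [Ring R] [Ring S] (f : R →+* S)
variable {M N L : Type} [AddCommGroup M] [Module S M] [AddCommGroup N] [Module S N]
  [AddCommGroup L] [Module S L]

/-- an `S`-linear map viewed over `R` -/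
def mapV (g : M →ₗ[S] N) : Vw f M →ₗ[R] Vw f N where
  toFun m := (show Vw f N from g (show M from m))
  map_add' x y := g.map_add (show M from x) (show M from y)
  map_smul' r m := g.map_smul (f r) (show M from m)

theorem mapV_comp (g : N →ₗ[S] L) (h : M →ₗ[S] N) : mapV f (g ∘ₗ h) = mapV f g ∘ₗ mapV f h := rfl

theorem mapV_SES {i : M →ₗ[S] N} {p : N →ₗ[S] L} (h : SES i p) : SES (mapV f i) (mapV f p) where
  inj := h.inj
  surj := h.surj
  exact := h.exact

/-- multiplication by `w` as an `S`-linear map -/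
def zl (w : S) (τ : S →+* S) (hw : ∀ s, w * s = τ s * w) (M : Type) [AddCommGroup M]
    [Module S M] : M →ₗ[S] Vw τ M where
  toFun m := (show Vw τ M from (w • m : M))
  map_add' x y := smul_add w x y
  map_smul' s m := by
    change w • (s • m) = τ s • (w • m)
    rw [← mul_smul, hw, mul_smul]

theorem zl_nat (w : S) (τ : S →+* S) (hw : ∀ s, w * s = τ s * w) (g : M →ₗ[S] N) :
    zl w τ hw N ∘ₗ g = mapV τ g ∘ₗ zl w τ hw M := by
  ext m
  exact (g.map_smul w m).symm

/-- the identity -/
def dd (τ : S →+* S) (M : Type) [AddCommGroup M] [Module S M] :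
    Vw f (Vw τ M) →ₗ[R] Vw (τ.comp f) M where
  toFun m := (show M from m)
  map_add' _ _ := rfl
  map_smul' _ _ := rfl

theorem zt_eq (w : S) (τ : S →+* S) (hw : ∀ s, w * s = τ s * w) (M : Type) [AddCommGroup M]
    [Module S M] : zt f w τ hw M = dd f τ M ∘ₗ mapV f (zl w τ hw M) := rfl

/-- the identity from a double twist to a twist -/
def d2 (σ τ ρ : S →+* S) (h : ∀ s, ρ s = σ (τ s)) (M : Type) [AddCommGroup M] [Module S M] :
    Vw τ (Vw σ M) →ₗ[S] Vw ρ M where
  toFun m := (show M from m)
  map_add' _ _ := rfl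
  map_smul' s m := by
    change σ (τ s) • (show M from m) = ρ s • (show M from m)
    rw [h]

end mapV

/-- Ext classes with values in a product are determined by their components. -/
theorem prod_zero {R : Type} [Ring R] {P N Λ : Type} [AddCommGroup P] [Module R P]
    [AddCommGroup N] [Module R N] (π : Λ → P →ₗ[R] N)
    (hinj : ∀ x, (∀ l, π l x = 0) → x = 0)
    (huniv : ∀ (F : Type) [AddCommGroup F] [Module R F] (t : Λ → F →ₗ[R] N),
      ∃ t' : F →ₗ[R] P, ∀ l, π l ∘ₗ t' = t l) :
    ∀ (j : ℕ) (V : Type) [AddCommGroup V] [Module R V] (η : E R V P j),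
      (∀ l, post (π l) η = 0) → η = 0 := by
  intro j
  induction j with
  | zero =>
    intro V _ _ η hη
    obtain ⟨g, rfl⟩ := hom0_surj η
    rw [hom0_eq_zero]
    ext v
    apply hinj
    intro l
    have h1 := hη l
    rw [post_hom0, hom0_eq_zero] at h1
    exact LinearMap.congr_fun h1 v
  | succ j ih =>
    intro V _ _ η hη
    have hsurj : Function.Surjective (Finsupp.linearCombination R (id : V → V)) := by
      intro v
      exact ⟨Finsupp.single v 1, by simp⟩
    have h := SES.ofSurj hsurj
    obtain ⟨η', rfl⟩ := con3 h η (E_proj _)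
    have h1 : ∀ l, ∃ θ : E R (V →₀ R) N j, pre (LinearMap.ker
        (Finsupp.linearCombination R (id : V → V))).subtype θ = post (π l) η' := by
      intro l
      apply con1 h
      rw [← post_dr]
      exact hη l
    choose θ hθ using h1
    cases j with
    | succ j =>
      have h2 : η' = 0 := by
        apply ih
        intro l
        rw [← hθ l, E_proj (θ l), pre_zero]
      rw [h2, dr_zero]
    | zero =>
      have h3 : ∀ l, ∃ t : (V →₀ R) →ₗ[R] N, hom0 t = θ l := fun l => hom0_surj _
      choose t ht using h3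
      obtain ⟨t', ht'⟩ := huniv _ t
      obtain ⟨g, rfl⟩ := hom0_surj η'
      have h4 : g = t' ∘ₗ (LinearMap.ker
          (Finsupp.linearCombination R (id : V → V))).subtype := by
        ext x
        rw [← sub_eq_zero]
        apply hinj
        intro l
        have h5 := hθ l
        rw [← ht l, pre_hom0, post_hom0] at h5
        have h6 := LinearMap.congr_fun (hom0_inj h5) x
        have h7 := LinearMap.congr_fun (ht' l)
          ((LinearMap.ker (Finsupp.linearCombination R (id : V → V))).subtype x)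
        rw [LinearMap.comp_apply] at h6 h7
        rw [map_sub, LinearMap.comp_apply, h7, h6, LinearMap.comp_apply, sub_self]
      rw [h4, ← pre_hom0, dr_pre]

section main

variable {k R S : Type} [Field k] [Ring R] [Algebra k R] [Ring S] [Algebra k S]

/-- the automorphism as a ring homomorphism -/
def rh (σ : S ≃ₐ[k] S) : S →+* S := (σ : S →ₐ[k] S).toRingHom

theorem rh_apply (σ : S ≃ₐ[k] S) (s : S) : rh σ s = σ s := rfl

/-- composition with the inverse of the automorphism -/
noncomputable def cinv (f : R →+* S) (σ : S ≃ₐ[k] S) :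
    Vw f (DS k S) →ₗ[R] Vw f (Vw (rh σ) (DS k S)) where
  toFun φ := (show DS k S from DS.ap (show DS k S from φ) ∘ₗ
    (σ.symm : S →ₐ[k] S).toLinearMap)
  map_add' _ _ := rfl
  map_smul' r φ := by
    refine DS.ext (k := k) (S := S) fun b => ?_
    have e : σ.symm (b * σ (f r)) = σ.symm b * f r := by
      rw [map_mul, AlgEquiv.symm_apply_apply]
    exact congrArg (DS.ap (show DS k S from φ)) e.symm

omit [Algebra k R] in
theorem mapV_zl_eq (f : R →+* S) (z : S) (σ : S ≃ₐ[k] S) (hz : ∀ s, z * s = rh σ s * z) :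
    mapV f (zl z (rh σ) hz (DS k S)) = cinv f σ ∘ₗ rho f z := by
  refine LinearMap.ext fun φ => ?_
  refine DS.ext (k := k) (S := S) fun b => ?_
  change DS.ap (show DS k S from φ) (b * z) = DS.ap (show DS k S from φ) (z * σ.symm b)
  rw [hz, rh_apply, AlgEquiv.apply_symm_apply]

/-- step 3 -/
theorem step3 (f : R →+* S) (V : Type) [AddCommGroup V] [Module R V] (z : S) (σ : S ≃ₐ[k] S)
    (hz : ∀ s, z * s = rh σ s * z) (j : ℕ)
    (h : ∀ ξ : E R V (Vw f (DS k S)) j, post (rho f z) ξ = 0) (Λ : Type)
    (ξ : E R V (Vw f (Λ → DS k S)) j) :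
    post (mapV f (zl z (rh σ) hz (Λ → DS k S))) ξ = 0 := by
  refine prod_zero (R := R) (P := Vw f (Vw (rh σ) (Λ → DS k S))) (N := Vw f (Vw (rh σ) (DS k S)))
    (Λ := Λ) (fun l => mapV f (mapV (rh σ) (LinearMap.proj l : (Λ → DS k S) →ₗ[S] DS k S)))
    ?_ ?_ j V _ ?_
  · intro x hx
    exact funext hx
  · intro F _ _ t
    let t' : F →ₗ[R] Vw f (Vw (rh σ) (Λ → DS k S)) :=
      { toFun := fun x => (show Λ → DS k S from fun l => (show DS k S from t l x))
        map_add' := fun x y => funext fun l => (t l).map_add x y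
        map_smul' := fun r x => funext fun l => (t l).map_smul r x }
    refine ⟨t', ?_⟩
    intro l
    rfl
  · intro l
    rw [← post_comp, ← mapV_comp, ← zl_nat, mapV_comp, post_comp, mapV_zl_eq, post_comp, h,
      post_zero]

/-- the functionals -/
abbrev Lam (k S M : Type) [Field k] [Ring S] [Algebra k S] [AddCommGroup M] [Module S M] : Type :=
  Vw (algebraMap k S) M →ₗ[k] k

/-- step 4: the embedding -/
noncomputable def emb (k S M : Type) [Field k] [Ring S] [Algebra k S] [AddCommGroup M]
    [Module S M] : M →ₗ[S] (Lam k S M → DS k S) where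
  toFun m := fun l => (show DS k S from
    { toFun := fun b => l (show Vw (algebraMap k S) M from (b • m : M))
      map_add' := fun a b => by
        rw [← map_add]
        exact congrArg l (add_smul a b m)
      map_smul' := fun c b => by
        rw [RingHom.id_apply, ← map_smul]
        refine congrArg l ?_
        change (c • b) • m = algebraMap k S c • (b • m)
        rw [Algebra.smul_def, mul_smul] } )
  map_add' x y := by
    funext l
    refine DS.ext (k := k) (S := S) fun b => ?_
    change l (show Vw (algebraMap k S) M from (b • (x + y) : M)) =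
      l (show Vw (algebraMap k S) M from (b • x : M)) +
      l (show Vw (algebraMap k S) M from (b • y : M))
    rw [← map_add]
    exact congrArg l (smul_add b x y)
  map_smul' s x := by
    funext l
    refine DS.ext (k := k) (S := S) fun b => ?_
    change l (show Vw (algebraMap k S) M from (b • (s • x) : M)) =
      l (show Vw (algebraMap k S) M from ((b * s) • x : M))
    rw [mul_smul]

theorem emb_inj (k S M : Type) [Field k] [Ring S] [Algebra k S] [AddCommGroup M]
    [Module S M] : Function.Injective (emb k S M) := by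
  rw [← LinearMap.ker_eq_bot, LinearMap.ker_eq_bot']
  intro m hm
  have h1 : ∀ l : Lam k S M, l (show Vw (algebraMap k S) M from m) = 0 := by
    intro l
    have h2 : DS.ap (emb k S M m l) 1 = 0 := by
      rw [hm]
      rfl
    have h3 : DS.ap (emb k S M m l) 1 =
      l (show Vw (algebraMap k S) M from ((1 : S) • m : M)) := rfl
    rw [h3, one_smul] at h2
    exact h2
  exact (Module.forall_dual_apply_eq_zero_iff k (show Vw (algebraMap k S) M from m)).1 h1

theorem pow_comm (z : S) (σ : S ≃ₐ[k] S) (hz : ∀ s, z * s = σ s * z) (n : ℕ) (s : S) :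
    z ^ n * s = (σ ^ n) s * z ^ n := by
  induction n generalizing s with
  | zero => simp
  | succ n ih =>
    rw [pow_succ, mul_assoc, hz, ← mul_assoc, ih, mul_assoc, pow_succ]
    rfl

/-- step 5 -/
theorem step5 (f : R →+* S) (V : Type) [AddCommGroup V] [Module R V] (z : S) (σ : S ≃ₐ[k] S)
    (hz : ∀ s, z * s = rh σ s * z) (j : ℕ)
    (h : ∀ i ≤ j, ∀ ξ : E R V (Vw f (DS k S)) i, post (rho f z) ξ = 0)
    (w : S) (τ : S →+* S) (hw : ∀ s, w * s = τ s * w) (hwz : w = z ^ (j + 1))
    (hτ : ∀ s, τ s = (σ ^ (j + 1)) s) (M : Type) [AddCommGroup M] [Module S M]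
    (ξ : E R V (Vw f M) j) :
    post (mapV f (zl w τ hw M)) ξ = 0 := by
  induction j generalizing w τ M with
  | zero =>
    obtain ⟨g, rfl⟩ := hom0_surj ξ
    have h1 := step3 f V z σ hz 0 (h 0 le_rfl) (Lam k S M) (post (mapV f (emb k S M)) (hom0 g))
    rw [← post_comp, ← mapV_comp, zl_nat, mapV_comp, post_comp, post_hom0, post_hom0,
      hom0_eq_zero] at h1
    rw [post_hom0, hom0_eq_zero]
    ext v
    have h2 := LinearMap.congr_fun h1 v
    change w • (show M from g v) = 0
    rw [hwz, zero_add, pow_one]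
    exact (map_eq_zero_iff (emb k S M) (emb_inj k S M)).1 h2
  | succ j ih =>
    -- the short exact sequences
    have s0 : SES (emb k S M) (LinearMap.range (emb k S M)).mkQ := SES.ofInj (emb_inj k S M)
    have s1 := mapV_SES (rh σ) s0
    have s2 := mapV_SES f s1
    have e1 : post (mapV f (mapV (rh σ) (emb k S M)))
        (post (mapV f (zl z (rh σ) hz M)) ξ) = 0 := by
      rw [← post_comp, ← mapV_comp, ← zl_nat, mapV_comp, post_comp]
      exact step3 f V z σ hz (j + 1) (h (j + 1) le_rfl) (Lam k S M) _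
    obtain ⟨η, hη⟩ := cov1 s2 _ e1
    have hw' : ∀ s, z ^ (j + 1) * s = rh (σ ^ (j + 1)) s * z ^ (j + 1) := by
      intro s
      rw [rh_apply]
      exact pow_comm z σ hz (j + 1) s
    have e2 := ih (fun i hi => h i (hi.trans (Nat.le_succ j))) (z ^ (j + 1)) (rh (σ ^ (j + 1))) hw'
      rfl (fun s => rfl) (Vw (rh σ) ((Lam k S M → DS k S) ⧸ LinearMap.range (emb k S M))) η
    have s3 := mapV_SES f (mapV_SES (rh (σ ^ (j + 1))) s1)
    have e3 := dl_nat s2 s3
      (mapV f (zl (z ^ (j + 1)) (rh (σ ^ (j + 1))) hw' (Vw (rh σ) M)))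
      (mapV f (zl (z ^ (j + 1)) (rh (σ ^ (j + 1))) hw' (Vw (rh σ) (Lam k S M → DS k S))))
      (mapV f (zl (z ^ (j + 1)) (rh (σ ^ (j + 1))) hw'
        (Vw (rh σ) ((Lam k S M → DS k S) ⧸ LinearMap.range (emb k S M)))))
      (by rw [← mapV_comp, ← mapV_comp, zl_nat]) (by rw [← mapV_comp, ← mapV_comp, zl_nat]) η
    rw [hη, e2, dl_zero, ← post_comp, ← mapV_comp] at e3
    have hρ : ∀ s, τ s = rh σ (rh (σ ^ (j + 1)) s) := by
      intro s
      rw [hτ, rh_apply, rh_apply, pow_succ']
      rfl
    have e4 : zl w τ hw M = d2 (rh σ) (rh (σ ^ (j + 1))) τ hρ M ∘ₗ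
        (zl (z ^ (j + 1)) (rh (σ ^ (j + 1))) hw' (Vw (rh σ) M) ∘ₗ zl z (rh σ) hz M) := by
      ext m
      change w • m = rh σ (z ^ (j + 1)) • (z • m)
      rw [← mul_smul, ← hz, hwz, ← pow_succ']
    rw [e4, mapV_comp, post_comp, e3, post_zero]

end main

end T2b

theorem task2b : Task2b := by
  intro k R S _ _ _ _ _ f V _ _ z σ hz i h w τ hw hwz hτ M _ _ ξ
  have hz' : ∀ s, z * s = T2b.rh σ s * z := hz
  rw [T2b.zt_eq, post_comp, T2b.step5 (k := k) f.toRingHom V z σ hz' i h w τ hw hwz hτ M ξ,
    post_zero]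

end Pool.Agent.Helper377_NS
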