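import Pool.Agent.Helper377_NS.Defs
import Pool.Agent.Helper202_BG.A
import Pool.Agent.Helper202_BG.B
import Pool.Agent.Helper202_BG.C
import Pool.Agent.Helper202_BG.D0
import Pool.Agent.Helper202_BG.G

/-!
JOB NS-4/5 (MP_112773_al, helper377).  Two short tasks.

Task 4: noetherian algebras with a polynomial identity are centrally separated.
Task 5: the automorphism of a prime factor ring defined by a normal element.
-/

set_option autoImplicit false

open CategoryTheory
open scoped TensorProduct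

namespace Pool.Agent.Helper377_NS

open Pool.Agent.Helper202_BG

theorem task4 : Task4 := by
  intro k R _ _ _ _ d hd P J hP hJ hPJ hinf hfin
  have hPt : P.IsTwoSided := hP.1
  -- an element of `J` outside `P`
  obtain ⟨b, hbJ, hbP⟩ : ∃ b ∈ J, b ∉ P := by
    by_contra hcon
    push Not at hcon
    have hJP : J = P := le_antisymm (fun x hx => hcon x hx) hPJ
    exact hinf (hJP ▸ hfin)
  have hprime : PrimeR (R ⧸ P) := TG.primeR_quotient P hP
  obtain ⟨n, -, hdet⟩ := TG.det_quotient (taskC taskA taskB) d hd P hP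
  have hb0 : (Ideal.Quotient.mk P b : R ⧸ P) ≠ 0 := fun h =>
    hbP (Ideal.Quotient.eq_zero_iff_mem.mp h)
  obtain ⟨m, p, q, hcen, r, s, hrs⟩ := taskD0 k (R ⧸ P) n hprime hdet _ hb0
  choose p' hp' using fun i => Ideal.Quotient.mk_surjective (p i)
  choose q' hq' using fun i => Ideal.Quotient.mk_surjective (q i)
  obtain ⟨r', rfl⟩ := Ideal.Quotient.mk_surjective r
  obtain ⟨s', rfl⟩ := Ideal.Quotient.mk_surjective s
  have hz : Ideal.Quotient.mk P (∑ i, p' i * (r' * b * s') * q' i)
      = ∑ i, p i * (Ideal.Quotient.mk P r' * Ideal.Quotient.mk P b * Ideal.Quotient.mk P s') * q i := by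
    rw [map_sum]
    refine Finset.sum_congr rfl fun i _ => ?_
    rw [map_mul, map_mul, map_mul, map_mul, hp' i, hq' i]
  have hcomm : ∀ x : R, (∑ i, p' i * (r' * b * s') * q' i) * x
      - x * (∑ i, p' i * (r' * b * s') * q' i) ∈ P := by
    intro x
    rw [← Ideal.Quotient.eq_zero_iff_mem, map_sub, map_mul, map_mul, hz, sub_eq_zero]
    exact ((Subring.mem_center_iff.mp (hcen _)) (Ideal.Quotient.mk P x)).symm
  refine ⟨∑ i, p' i * (r' * b * s') * q' i, ?_, ?_, fun x => ⟨x, hcomm x⟩, fun x => ⟨x, ?_⟩⟩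
  · refine Ideal.sum_mem _ fun i _ => ?_
    have h1 : r' * b ∈ J := J.mul_mem_left _ hbJ
    have h2 : r' * b * s' ∈ J := J.mul_mem_right s' h1
    exact J.mul_mem_right (q' i) (J.mul_mem_left _ h2)
  · intro h
    apply hrs
    rw [← hz]
    exact Ideal.Quotient.eq_zero_iff_mem.mpr h
  · have := P.neg_mem (hcomm x)
    rwa [neg_sub] at this

/-- Task 5 for a prime ring. -/
theorem normal_aut {k S : Type} [Field k] [Ring S] [Algebra k S] (hS : PrimeR S) (z : S)
    (hz : z ≠ 0) (h1 : ∀ r : S, ∃ s, z * r = s * z) (h2 : ∀ r : S, ∃ s, r * z = z * s) :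
    ∃ σ : S ≃ₐ[k] S, ∀ s : S, z * s = σ s * z := by
  -- regularity
  have hr : ∀ a : S, a * z = 0 → a = 0 := by
    intro a ha
    rcases hS.2 a z (fun s => by
      obtain ⟨s', hs'⟩ := h2 s
      rw [mul_assoc, hs', ← mul_assoc, ha, zero_mul]) with h | h
    · exact h
    · exact absurd h hz
  have hl : ∀ a : S, z * a = 0 → a = 0 := by
    intro a ha
    rcases hS.2 z a (fun s => by
      obtain ⟨s', hs'⟩ := h1 s
      rw [hs', mul_assoc, ha, mul_zero]) with h | h
    · exact absurd h hz
    · exact h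
  choose f hf using h1
  have huniq : ∀ s t : S, z * s = t * z → f s = t := by
    intro s t h
    rw [hf s] at h
    have := hr (f s - t) (by rw [sub_mul, h, sub_self])
    exact sub_eq_zero.mp this
  have hf1 : f 1 = 1 := huniq 1 1 (by rw [mul_one, one_mul])
  have hf0 : f 0 = 0 := huniq 0 0 (by rw [mul_zero, zero_mul])
  have hadd : ∀ x y, f (x + y) = f x + f y := fun x y =>
    huniq _ _ (by rw [mul_add, add_mul, hf x, hf y])
  have hmul : ∀ x y, f (x * y) = f x * f y := fun x y =>
    huniq _ _ (by rw [← mul_assoc, hf x, mul_assoc, hf y, mul_assoc])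
  have hcomm : ∀ c : k, f (algebraMap k S c) = algebraMap k S c := fun c =>
    huniq _ _ ((Algebra.commutes c z).symm)
  let g : S →ₐ[k] S :=
    { toFun := f, map_one' := hf1, map_mul' := hmul, map_zero' := hf0, map_add' := hadd,
      commutes' := hcomm }
  have hg : ∀ x, g x = f x := fun _ => rfl
  have hinj : Function.Injective g := by
    intro x y hxy
    rw [hg, hg] at hxy
    have h3 : z * (x - y) = 0 := by rw [mul_sub, hf x, hf y, hxy, sub_self]
    exact sub_eq_zero.mp (hl _ h3)
  have hsurj : Function.Surjective g := by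
    intro r
    obtain ⟨s, hs⟩ := h2 r
    exact ⟨s, huniq s r hs.symm⟩
  exact ⟨AlgEquiv.ofBijective g ⟨hinj, hsurj⟩, fun s => hf s⟩

theorem task5 : Task5 := by
  intro k R _ _ _ P _ hP z hz h1 h2
  refine normal_aut (TG.primeR_quotient P hP) (Ideal.Quotient.mk P z)
    (fun h => hz (Ideal.Quotient.eq_zero_iff_mem.mp h)) ?_ ?_
  · intro r
    obtain ⟨r, rfl⟩ := Ideal.Quotient.mk_surjective r
    obtain ⟨s, hs⟩ := h1 r
    refine ⟨Ideal.Quotient.mk P s, ?_⟩
    rw [← sub_eq_zero, ← map_mul, ← map_mul, ← map_sub]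
    exact Ideal.Quotient.eq_zero_iff_mem.mpr hs
  · intro r
    obtain ⟨r, rfl⟩ := Ideal.Quotient.mk_surjective r
    obtain ⟨s, hs⟩ := h2 r
    refine ⟨Ideal.Quotient.mk P s, ?_⟩
    rw [← sub_eq_zero, ← map_mul, ← map_mul, ← map_sub]
    exact Ideal.Quotient.eq_zero_iff_mem.mpr hs

end Pool.Agent.Helper377_NS
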