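import Pool.Agent.Helper377_NS.B
import Pool.Agent.Helper377_NS.Task1
import Pool.Agent.Helper377_NS.Task2a
import Pool.Agent.Helper377_NS.Task2b
import Pool.Agent.Helper377_NS.Task45
import Pool.Agent.Helper377_AG.Final

/-!
The theorem for noetherian Hopf algebras.
-/

set_option autoImplicit false

open CategoryTheory
open scoped TensorProduct

namespace Pool.Agent.Helper377_NS

open Pool.Agent.Helper202_BG Pool.Agent.Helper377_AG

theorem task2 : Task2 := task2_of task1 task2a task2b

section
variable {k R : Type} [Field k] [Ring R] [Algebra k R]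

theorem vanish_pow {V : Type} [AddCommGroup V] [Module R V] {n : ℕ}
    (h : ∀ ξ : E R V R n, ξ = 0) (m : ℕ) (ξ : E R V (Fin m → R) n) : ξ = 0 := by
  have h1 : (LinearMap.id : (Fin m → R) →ₗ[R] (Fin m → R)) =
      ∑ j, (LinearMap.single R (fun _ : Fin m => R) j) ∘ₗ (LinearMap.proj j) := by
    ext j i
    simp [LinearMap.sum_apply, Pi.single_apply, Finset.sum_ite_eq]
  rw [← post_id ξ, h1, sum_post]
  refine Finset.sum_eq_zero fun j _ => ?_
  rw [post_comp, h (post (LinearMap.proj j) ξ), post_zero]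

/-- iterated syzygies -/
theorem exists_syz [IsNoetherianRing R] (T : Type) [AddCommGroup T] [Module R T]
    [Module.Finite R T]
    (hvan : ∀ (V : Type) [AddCommGroup V] [Module R V] [Module k V] [IsScalarTower k R V]
      [Module.Finite k V] (n : ℕ) (ξ : E R V R n), ξ = 0) (n : ℕ) :
    ∃ (K : Type) (_ : AddCommGroup K) (_ : Module R K) (_ : Module.Finite R K) (c : E R T K n),
      ∀ (V : Type) [AddCommGroup V] [Module R V] [Module k V] [IsScalarTower k R V]
        [Module.Finite k V] (p : V →ₗ[R] T), pre p c = 0 → p = 0 := by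
  induction n with
  | zero =>
    refine ⟨T, inferInstance, inferInstance, inferInstance, hom0 LinearMap.id, ?_⟩
    intro V _ _ _ _ _ p hp
    rw [pre_hom0, hom0_eq_zero, LinearMap.id_comp] at hp
    exact hp
  | succ n ih =>
    obtain ⟨K, _, _, _, c, hc⟩ := ih
    obtain ⟨m, π, hπ, hfin⟩ := exists_free_cover (A := R) K
    have hs : SES (LinearMap.ker π).subtype π := SES.ofSurj hπ
    refine ⟨LinearMap.ker π, inferInstance, inferInstance, hfin, dl hs c, ?_⟩
    intro V _ _ _ _ _ p hp
    rw [pre_dl] at hp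
    obtain ⟨ζ, hζ⟩ := cov3 hs _ hp
    apply hc V p
    rw [← hζ, vanish_pow (hvan V n) m ζ, post_zero]

end

section
variable (k H : Type) [Field k] [Ring H] [HopfAlgebra k H]

instance : Module.Finite k (Tr (eps k H)) := inferInstanceAs (Module.Finite k k)

theorem exists_ext [IsNoetherianRing H] [IsNoetherianRing Hᵐᵒᵖ] (hN : NormSep k H)
    (hE : Ess k H) (hB : BddChains k H) :
    ∃ n, ¬ Subsingleton (E H (Tr (eps k H)) H n) := by
  by_contra hcon
  push Not at hcon
  obtain ⟨δ, d, hd, hδ⟩ := exists_delta hB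
  have hvan : ∀ (V : Type) [AddCommGroup V] [Module H V] [Module k V] [IsScalarTower k H V]
      [Module.Finite k V] (n : ℕ) (ξ : E H V H n), ξ = 0 := by
    intro V _ _ _ _ _ n ξ
    obtain ⟨e⟩ := taskD k H V n
    have := hcon n
    apply e.injective
    exact Subsingleton.elim _ _
  have : Module.Finite H (Tr (eps k H)) := Module.Finite.of_restrictScalars_finite k H _
  obtain ⟨K, _, _, _, c, hc⟩ := exists_syz (k := k) (R := H) (Tr (eps k H)) hvan (d + 1)
  obtain ⟨V, _, _, _, _, _, π, hπ, h1⟩ :=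
    claimB hN task2 task5 hE δ hδ (d + 1) K (fun P _ _ => Nat.lt_succ_of_le (hd P))
      (Tr (eps k H)) c
  have h2 := hc V π h1
  obtain ⟨v, hv⟩ := hπ (Tr.mk (eps k H) 1)
  rw [h2, LinearMap.zero_apply] at hv
  have h3 : (0 : k) = 1 := hv
  exact zero_ne_one h3

theorem exists_crit [IsNoetherianRing H] [IsNoetherianRing Hᵐᵒᵖ] (hN : NormSep k H)
    (h : ∃ n, ¬ Subsingleton (E H (Tr (eps k H)) H n)) :
    ∃ n, Crit k (TrO k H) (ModuleCat.of H H) n := by
  classical
  refine ⟨Nat.find h, fun i hi => not_not.1 (Nat.find_min h hi), ⊤, ?_, ?_,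
    fun _ _ _ => Submodule.mem_top⟩
  · have : Nontrivial (Abelian.Ext.{0} (TrO k H) (ModuleCat.of H H) (Nat.find h)) :=
      not_subsingleton_iff_nontrivial.1 (Nat.find_spec h)
    exact top_ne_bot
  · have : Module.Finite k (E H (Tr (eps k H)) H (Nat.find h)) :=
      claimA hN task2 task5 ⊥ H bot_le (Tr (eps k H)) (Nat.find h)
    have h2 : FiniteDimensional k (Abelian.Ext.{0} (TrO k H) (ModuleCat.of H H) (Nat.find h)) :=
      this
    infer_instance

end

end Pool.Agent.Helper377_NS
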