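import Pool.Agent.Helper377_NS.Defs
import Pool.Agent.Helper202_BG.P3h

/-!
The basic step: a prime module embeds in a module so that Ext classes die and the cokernel has a
larger annihilator.
-/

set_option autoImplicit false

open CategoryTheory
open scoped TensorProduct

namespace Pool.Agent.Helper377_NS

open Pool.Agent.Helper202_BG

section
variable {R : Type} [Ring R]

/-- an element which is normal modulo the annihilator acts injectively on a prime module -/
theorem normal_inj {U : Type} [AddCommGroup U] [Module R U] (hU : PrimeM R U) (z : R)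
    (hz : z ∉ Module.annihilator R U)
    (hzr : ∀ r, ∃ s, z * r - s * z ∈ Module.annihilator R U) (u : U) (h : z • u = 0) : u = 0 := by
  by_contra hu
  apply hz
  rw [Module.mem_annihilator]
  refine hU.2 z u hu fun r => ?_
  obtain ⟨s, hs⟩ := hzr r
  rw [Module.mem_annihilator] at hs
  have h1 := hs u
  rw [sub_smul, mul_smul, mul_smul, h, smul_zero, sub_zero] at h1
  exact h1

end

section
variable {k R : Type} [Field k] [Ring R] [Algebra k R]

/-- a left ideal containing the kernel of a linear map to a finite-dimensional space -/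
theorem finite_quot (I : Ideal R) {W : Type} [AddCommGroup W] [Module k W] [Module.Finite k W]
    (φ : R →ₗ[k] W) (h : ∀ x, φ x = 0 → x ∈ I) : Module.Finite k (R ⧸ I) := by
  have h1 : Module.Finite k (R ⧸ LinearMap.ker φ) :=
    Module.Finite.equiv φ.quotKerEquivRange.symm
  have h2 : LinearMap.ker φ ≤ I.restrictScalars k := fun x hx => h x hx
  have h3 : Module.Finite k (R ⧸ I.restrictScalars k) :=
    Module.Finite.of_surjective (Submodule.factor h2) (Submodule.factor_surjective h2)
  exact Module.Finite.equiv (Submodule.Quotient.restrictScalarsEquiv k I)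

theorem finite_comap {S : Type} [Ring S] [Algebra k S] (f : R →ₐ[k] S) (J : Ideal S)
    (h : Module.Finite k (S ⧸ J)) : Module.Finite k (R ⧸ J.comap f.toRingHom) := by
  refine finite_quot (k := k) (J.comap f.toRingHom) (W := S ⧸ J)
    ((J.mkQ.restrictScalars k) ∘ₗ f.toLinearMap) ?_
  intro x hx
  exact (Submodule.Quotient.mk_eq_zero J).1 hx

theorem pow_comm {S : Type} [Ring S] [Algebra k S] (z : S) (σ : S ≃ₐ[k] S)
    (h : ∀ s, z * s = σ s * z) (n : ℕ) (s : S) : z ^ n * s = (σ ^ n) s * z ^ n := by
  induction n generalizing s with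
  | zero => simp
  | succ n ih =>
    rw [pow_succ, mul_assoc, h, ← mul_assoc, ih, mul_assoc, pow_succ σ]
    rfl

/-- The basic step. -/
theorem step [IsNoetherianRing R] [IsNoetherianRing Rᵐᵒᵖ] (hN : NormSep k R) (h2 : Task2)
    (h5 : Task5) (U : Type) [AddCommGroup U] [Module R U] [Module.Finite R U] (hU : PrimeM R U)
    (hinf : ¬ Module.Finite k (R ⧸ Module.annihilator R U))
    (V : Type) [AddCommGroup V] [Module R V] [Module k V] [IsScalarTower k R V]
    [Module.Finite k V] (i : ℕ) :
    ∃ (U' : Type) (_ : AddCommGroup U') (_ : Module R U') (g : U →ₗ[R] U'),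
      Module.Finite R U' ∧ Function.Injective g ∧ (∀ ξ : E R V U i, post g ξ = 0) ∧
        Module.annihilator R U < Module.annihilator R (U' ⧸ LinearMap.range g) := by
  classical
  have hP : PrimeI (Module.annihilator R U) := primeI_ann U hU
  let f : R →ₐ[k] (R ⧸ Module.annihilator R U) := Ideal.Quotient.mkₐ k _
  have hf : Function.Surjective f := Ideal.Quotient.mkₐ_surjective k _
  obtain ⟨J, hJ, hJfin, hJk⟩ := h2 k R _ f hf V i
  have hfin' : Module.Finite k (R ⧸ J.comap f.toRingHom) := finite_comap f J hJfin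
  have htwo : (J.comap f.toRingHom).IsTwoSided := by
    refine ⟨fun {a} b ha => ?_⟩
    change f (a * b) ∈ J
    rw [map_mul]
    exact J.mul_mem_right _ ha
  have hle : Module.annihilator R U ≤ J.comap f.toRingHom := by
    intro x hx
    change f x ∈ J
    have : f x = 0 := Ideal.Quotient.eq_zero_iff_mem.2 hx
    rw [this]
    exact J.zero_mem
  obtain ⟨z, hzJ, hz, hz1, hz2⟩ := hN _ _ hP htwo hle hinf hfin'
  obtain ⟨σ, hσ⟩ := h5 k R _ hP z hz hz1 hz2
  have hpow : ∀ (s : R ⧸ Module.annihilator R U),
      f z ^ (i + 1) * s = (σ ^ (i + 1)) s * f z ^ (i + 1) := pow_comm (f z) σ hσ (i + 1)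
  let τ : (R ⧸ Module.annihilator R U) →+* (R ⧸ Module.annihilator R U) :=
    ((σ ^ (i + 1) : (R ⧸ Module.annihilator R U) ≃ₐ[k] (R ⧸ Module.annihilator R U)) :
      (R ⧸ Module.annihilator R U) →+* (R ⧸ Module.annihilator R U))
  have hτ : ∀ s, τ s = (σ ^ (i + 1)) s := fun s => rfl
  let mU : Module (R ⧸ Module.annihilator R U) U := Module.quotientAnnihilator
  have hsm : ∀ (r : R) (u : U), f r • u = r • u := fun r u => rfl
  have hw : ∀ s, f z ^ (i + 1) * s = τ s * f z ^ (i + 1) := hpow
  let e : U →ₗ[R] Vw f.toRingHom U :=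
    { toFun := fun u => u
      map_add' := fun _ _ => rfl
      map_smul' := fun r u => (hsm r u).symm }
  let g : U →ₗ[R] Vw (τ.comp f.toRingHom) U := zt f.toRingHom (f z ^ (i + 1)) τ hw U ∘ₗ e
  have hg : ∀ u : U, g u = (show Vw (τ.comp f.toRingHom) U from (z ^ (i + 1)) • u) := by
    intro u
    change (f z ^ (i + 1)) • u = (z ^ (i + 1)) • u
    rw [← map_pow, hsm]
  have hzinj : ∀ (n : ℕ) (u : U), z ^ n • u = 0 → u = 0 := by
    intro n
    induction n with
    | zero => intro u h; simpa using h
    | succ n ih =>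
      intro u h
      rw [pow_succ', mul_smul] at h
      exact ih _ (normal_inj hU z hz hz1 _ h)
  have hτs : Function.Surjective (τ.comp f.toRingHom) := by
    intro s
    obtain ⟨t, ht⟩ := (σ ^ (i + 1)).surjective s
    obtain ⟨r, hr⟩ := hf t
    exact ⟨r, by
      change (σ ^ (i + 1)) (f r) = s
      rw [hr, ht]⟩
  refine ⟨Vw (τ.comp f.toRingHom) U, inferInstance, inferInstance, g, ?_, ?_, ?_, ?_⟩
  · -- finiteness
    obtain ⟨m, v, hv⟩ := Module.Finite.exists_fin (R := R) (M := U)
    refine ⟨⟨(Finset.univ.image v : Finset U), ?_⟩⟩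
    rw [eq_top_iff]
    intro u _
    have hu : (show U from u) ∈ Submodule.span R (Set.range v) := by rw [hv]; trivial
    rw [Submodule.mem_span_range_iff_exists_fun] at hu
    obtain ⟨c, hc⟩ := hu
    choose r hr using fun j => hτs (f (c j))
    have h1 : (show Vw (τ.comp f.toRingHom) U from u) =
        ∑ j, r j • (show Vw (τ.comp f.toRingHom) U from v j) := by
      change (show U from u) = ∑ j, (τ.comp f.toRingHom (r j)) • v j
      rw [← hc]
      refine Finset.sum_congr rfl fun j _ => ?_
      rw [hr, hsm]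
    change (show Vw (τ.comp f.toRingHom) U from u) ∈ _
    rw [h1]
    refine Submodule.sum_mem _ fun j _ => Submodule.smul_mem _ _ (Submodule.subset_span ?_)
    exact Finset.mem_coe.2 (Finset.mem_image_of_mem v (Finset.mem_univ j))
  · intro x y hxy
    have h1 : z ^ (i + 1) • (x - y) = 0 := by
      rw [smul_sub, sub_eq_zero]
      exact hxy
    exact sub_eq_zero.1 (hzinj _ _ h1)
  · intro ξ
    change post (zt f.toRingHom (f z ^ (i + 1)) τ hw U ∘ₗ e) ξ = 0
    rw [post_comp]
    exact hJk (f z) σ hzJ hσ _ τ hw rfl hτ U _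
  · refine lt_of_le_of_ne ?_ ?_
    · intro p hp
      rw [Module.mem_annihilator]
      intro c
      obtain ⟨u, rfl⟩ := (LinearMap.range g).mkQ_surjective c
      rw [← map_smul]
      have h1 : p • u = 0 := by
        change (τ (f p)) • (show U from u) = 0
        have h2 : f p = 0 := Ideal.Quotient.eq_zero_iff_mem.2 hp
        rw [h2, map_zero, zero_smul]
      rw [h1, map_zero]
    · intro heq
      obtain ⟨y, hy⟩ := hτs (f z ^ (i + 1))
      have hy1 : y ∈ Module.annihilator R
          (Vw (τ.comp f.toRingHom) U ⧸ LinearMap.range g) := by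
        rw [Module.mem_annihilator]
        intro c
        obtain ⟨u, rfl⟩ := (LinearMap.range g).mkQ_surjective c
        rw [← map_smul, Submodule.mkQ_apply, Submodule.Quotient.mk_eq_zero]
        refine ⟨(show U from u), ?_⟩
        rw [hg]
        change (z ^ (i + 1)) • (show U from u) = (τ.comp f.toRingHom y) • (show U from u)
        rw [hy, ← map_pow, hsm]
      rw [← heq] at hy1
      have h2 : f y = 0 := Ideal.Quotient.eq_zero_iff_mem.2 hy1
      have h3 : f z ^ (i + 1) = 0 := by
        rw [← hy]
        change τ (f y) = 0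
        rw [h2, map_zero]
      obtain ⟨u, hu⟩ := @exists_ne U hU.1 0
      apply hu
      apply hzinj (i + 1)
      rw [← hsm, map_pow, h3, zero_smul]

end

end Pool.Agent.Helper377_NS
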