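import Pool.Agent.Helper377_NS.Defs
import Pool.Agent.Helper202_BG.I
import Pool.Agent.Helper202_BG.P3h

/-!
Task 3: finitely generated essential extensions of finite-dimensional modules are
finite-dimensional if all ideals of finite codimension of infinite-dimensional prime factor rings
contain nonzero normal elements.
-/

set_option autoImplicit false

open CategoryTheory
open scoped TensorProduct

namespace Pool.Agent.Helper377_NS

open Pool.Agent.Helper202_BG

theorem t3_finite {k R : Type} [Field k] [Ring R] [Algebra k R] (J : Ideal R) {V : Type}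
    [AddCommGroup V] [Module k V] [Module.Finite k V] (f : R →ₗ[k] V)
    (h : ∀ r, f r = 0 → r ∈ J) : Module.Finite k (R ⧸ J) := by
  let g : R →ₗ[k] R ⧸ J := (Submodule.mkQ J).restrictScalars k
  have hker : LinearMap.ker f ≤ LinearMap.ker g := by
    intro r hr
    rw [LinearMap.mem_ker] at hr ⊢
    exact (Submodule.Quotient.mk_eq_zero J).mpr (h r hr)
  have hfin : Module.Finite k (R ⧸ LinearMap.ker f) :=
    Module.Finite.equiv (f.quotKerEquivRange).symm
  refine Module.Finite.of_surjective ((LinearMap.ker f).liftQ g hker) ?_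
  intro x
  obtain ⟨r, rfl⟩ := Submodule.mkQ_surjective J x
  exact ⟨Submodule.Quotient.mk r, rfl⟩

theorem task3 : Task3 := by
  classical
  intro k R _ _ _ _ hNS X _ _ _ _ _ U hU hess
  have : IsNoetherian R X := isNoetherian_of_isNoetherianRing_of_finite R X
  obtain ⟨D, hD, hmax⟩ := TI.exists_largest (k := k) (A := R) (X := X)
  by_contra hX
  have hDtop : D ≠ ⊤ := fun h => hX (TI.finite_of_fd_top (A := R) (h ▸ hD))
  have hntQ : Nontrivial (X ⧸ D) := Submodule.Quotient.nontrivial_iff.mpr hDtop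
  obtain ⟨M, hM0, hM⟩ := TI.exists_prime_submodule (A := R) (X := X ⧸ D)
  obtain ⟨P, hPdef⟩ : ∃ P : Ideal R, P = M.annihilator := ⟨_, rfl⟩
  have hPm : ∀ a, a ∈ P ↔ ∀ m ∈ M, a • m = 0 := by
    intro a
    rw [hPdef, Submodule.mem_annihilator]
  have hP : PrimeI P := by
    rw [hPdef]
    exact primeI_ann M hM
  have hPt : P.IsTwoSided := hP.1
  -- `P` has infinite codimension
  have hPinf : ¬ Module.Finite k (R ⧸ P) := by
    intro hfin
    obtain ⟨x, hxM, hx0⟩ := Submodule.exists_mem_ne_zero_of_ne_bot hM0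
    have h1 : TI.Fd k (Submodule.span R {x}) := by
      unfold TI.Fd
      let g : R →ₗ[R] X ⧸ D := LinearMap.toSpanSingleton R _ x
      have hg : P ≤ LinearMap.ker g := by
        intro r hr
        rw [LinearMap.mem_ker]
        exact (hPm r).1 hr x hxM
      let h : (R ⧸ P) →ₗ[k] X ⧸ D := (P.liftQ g hg).restrictScalars k
      have h2 : (Submodule.span R {x}).restrictScalars k = LinearMap.range h := by
        ext y
        constructor
        · intro hy
          obtain ⟨r, rfl⟩ := Submodule.mem_span_singleton.mp hy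
          exact ⟨Submodule.Quotient.mk r, rfl⟩
        · rintro ⟨r, rfl⟩
          obtain ⟨r, rfl⟩ := Submodule.mkQ_surjective P r
          exact Submodule.mem_span_singleton.mpr ⟨r, rfl⟩
      rw [h2, ← Module.Finite.iff_fg]
      infer_instance
    have h3 := TI.no_fd_quotient D hD hmax _ h1
    rw [Submodule.span_singleton_eq_bot] at h3
    exact hx0 h3
  -- the annihilator of `D`
  have hDfin : Module.Finite k D := (TI.fd_iff D).1 hD
  obtain ⟨Q, hQdef⟩ : ∃ Q : Ideal R, Q = D.annihilator := ⟨_, rfl⟩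
  have hQm : ∀ a, a ∈ Q ↔ ∀ d ∈ D, a • d = 0 := by
    intro a
    rw [hQdef, Submodule.mem_annihilator]
  have hQr : ∀ a ∈ Q, ∀ b, a * b ∈ Q := by
    intro a ha b
    rw [hQm]
    intro d hd
    rw [mul_smul]
    exact (hQm a).1 ha _ (D.smul_mem b hd)
  -- the product
  let QP : Ideal R := Ideal.span {x | ∃ q ∈ Q, ∃ p ∈ P, x = q * p}
  have hQPmem : ∀ q ∈ Q, ∀ p ∈ P, q * p ∈ QP := fun q hq p hp =>
    Ideal.subset_span ⟨q, hq, p, hp, rfl⟩
  have hQPr : ∀ x ∈ QP, ∀ b, x * b ∈ QP := by
    intro x hx b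
    refine Submodule.span_induction (p := fun a _ => a * b ∈ QP) ?_ ?_ ?_ ?_ hx
    · rintro _ ⟨q, hq, p, hp, rfl⟩
      rw [mul_assoc]
      exact hQPmem q hq _ (hPt.mul_mem_of_left b hp)
    · rw [zero_mul]; exact QP.zero_mem
    · intro x y _ _ hx hy
      rw [add_mul]
      exact QP.add_mem hx hy
    · intro a x _ hx
      rw [smul_eq_mul, mul_assoc]
      exact QP.mul_mem_left a hx
  let J : Ideal R :=
    { carrier := {r | ∀ p ∈ P, p * r ∈ QP}
      add_mem' := by
        intro a b ha hb p hp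
        rw [mul_add]
        exact QP.add_mem (ha p hp) (hb p hp)
      zero_mem' := by
        intro p _
        rw [mul_zero]
        exact QP.zero_mem
      smul_mem' := by
        intro c r hr p hp
        rw [smul_eq_mul, ← mul_assoc]
        exact hr _ (hPt.mul_mem_of_left c hp) }
  have hJm : ∀ r, r ∈ J ↔ ∀ p ∈ P, p * r ∈ QP := fun r => Iff.rfl
  let I : Ideal R := (J ⊓ Q) ⊔ P
  have hIt : I.IsTwoSided := by
    constructor
    intro a b ha
    obtain ⟨x, hx, y, hy, rfl⟩ := Submodule.mem_sup.1 ha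
    rw [add_mul]
    refine I.add_mem ?_ ?_
    · refine Submodule.mem_sup_left ⟨?_, hQr x hx.2 b⟩
      intro p hp
      rw [← mul_assoc]
      exact hQPr _ (hx.1 p hp) b
    · exact Submodule.mem_sup_right (hPt.mul_mem_of_left b hy)
  -- finite codimension
  have hIfin : Module.Finite k (R ⧸ I) := by
    have hQfin : Module.Finite k (R ⧸ Q) := by
      refine t3_finite Q (V := Module.End k D) (Algebra.lsmul k k D : R →ₐ[k] _).toLinearMap ?_
      intro r hr
      rw [hQm]
      intro d hd
      have h1 := congrArg (fun g : Module.End k D => g ⟨d, hd⟩) hr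
      exact congrArg Subtype.val h1
    obtain ⟨s, hs⟩ := (inferInstance : IsNoetherianRing R).noetherian P
    have hsP : ∀ p ∈ s, p ∈ P := fun p hp => by
      rw [← hs]; exact Submodule.subset_span hp
    let ψ : (p : s) → (R ⧸ Q) →ₗ[R] (R ⧸ QP) := fun p =>
      Q.liftQ ((Submodule.mkQ QP).comp (LinearMap.toSpanSingleton R R (p : R))) (by
        intro q hq
        rw [LinearMap.mem_ker]
        exact (Submodule.Quotient.mk_eq_zero QP).mpr (hQPmem q hq _ (hsP p p.2)))
    let φ : (p : s) → (R ⧸ Q) →ₗ[k] (R ⧸ QP) := fun p => (ψ p).restrictScalars k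
    let Φ : (s → R ⧸ Q) →ₗ[k] (R ⧸ QP) := ∑ p : s, (φ p).comp (LinearMap.proj p)
    have hΦ : ∀ a ∈ P, (Submodule.Quotient.mk a : R ⧸ QP) ∈ LinearMap.range Φ := by
      intro a ha
      rw [← hs] at ha
      refine Submodule.span_induction
        (p := fun a _ => (Submodule.Quotient.mk a : R ⧸ QP) ∈ LinearMap.range Φ) ?_ ?_ ?_ ?_ ha
      · intro p hp
        refine ⟨Pi.single ⟨p, hp⟩ (Submodule.Quotient.mk 1), ?_⟩
        have h1 : Φ (Pi.single ⟨p, hp⟩ (Submodule.Quotient.mk 1))
            = ∑ q : s, φ q ((Pi.single (⟨p, hp⟩ : s) (Submodule.Quotient.mk 1 : R ⧸ Q)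
                : s → R ⧸ Q) q) := by
          rw [LinearMap.sum_apply]
          rfl
        rw [h1, Finset.sum_eq_single (⟨p, hp⟩ : s)]
        · rw [Pi.single_eq_same]
          change (Submodule.Quotient.mk ((1 : R) • (p : R)) : R ⧸ QP) = _
          rw [one_smul]
        · intro q _ hq
          rw [Pi.single_eq_of_ne hq, map_zero]
        · intro h
          exact absurd (Finset.mem_univ _) h
      · exact Submodule.zero_mem _
      · intro x y _ _ hx hy
        exact Submodule.add_mem _ hx hy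
      · intro c x _ hx
        obtain ⟨v, hv⟩ := hx
        -- `Φ` is `R`-linear
        have hlin : ∀ v : s → R ⧸ Q, Φ (c • v) = c • Φ v := by
          intro v
          change (∑ p : s, (φ p).comp (LinearMap.proj p)) (c • v)
            = c • (∑ p : s, (φ p).comp (LinearMap.proj p)) v
          rw [LinearMap.sum_apply, LinearMap.sum_apply, Finset.smul_sum]
          refine Finset.sum_congr rfl fun p _ => ?_
          exact map_smul (ψ p) c (v p)
        refine ⟨c • v, ?_⟩
        rw [hlin, hv]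
        rfl
    let W : Submodule k (R ⧸ QP) := LinearMap.range Φ
    let g : (p : s) → R →ₗ[k] W := fun p =>
      LinearMap.codRestrict W
        (((Submodule.mkQ QP).restrictScalars k).comp (LinearMap.mulLeft k (p : R)))
        (fun r => hΦ _ (hPt.mul_mem_of_left r (hsP p p.2)))
    let G : R →ₗ[k] ((s → W) × Module.End k D) :=
      (LinearMap.pi g).prod (Algebra.lsmul k k D : R →ₐ[k] _).toLinearMap
    refine t3_finite I G ?_
    intro r hr
    refine Submodule.mem_sup_left ⟨?_, ?_⟩
    · intro p hp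
      have h1 : ∀ q ∈ s, q * r ∈ QP := by
        intro q hq
        have h2 : (G r).1 = 0 := by rw [hr]; rfl
        have h3 := congrArg Subtype.val (congrFun h2 ⟨q, hq⟩)
        exact (Submodule.Quotient.mk_eq_zero QP).mp h3
      rw [← hs] at hp
      refine Submodule.span_induction (p := fun a _ => a * r ∈ QP) ?_ ?_ ?_ ?_ hp
      · exact h1
      · rw [zero_mul]; exact QP.zero_mem
      · intro x y _ _ hx hy
        rw [add_mul]
        exact QP.add_mem hx hy
      · intro a x _ hx
        rw [smul_eq_mul, mul_assoc]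
        exact QP.mul_mem_left a hx
    · show r ∈ Q
      rw [hQm]
      intro d hd
      have h2 : (G r).2 = 0 := by rw [hr]; rfl
      have h1 := congrArg (fun g : Module.End k D => g ⟨d, hd⟩) h2
      exact congrArg Subtype.val h1
  obtain ⟨z', hz'I, hz'P, hz'1, hz'2⟩ := hNS P I hP hIt le_sup_right hPinf hIfin
  obtain ⟨z, ⟨hzJ, hzQ⟩, p₀, hp₀, rfl⟩ := Submodule.mem_sup.1 hz'I
  have hzP : z ∉ P := fun h => hz'P (P.add_mem h hp₀)
  have hz1 : ∀ r, ∃ s, z * r - s * z ∈ P := by
    intro r
    obtain ⟨s, hs⟩ := hz'1 r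
    refine ⟨s, ?_⟩
    have h1 : z * r - s * z = ((z + p₀) * r - s * (z + p₀)) - (p₀ * r - s * p₀) := by
      noncomm_ring
    rw [h1]
    exact P.sub_mem hs (P.sub_mem (hPt.mul_mem_of_left r hp₀) (P.mul_mem_left s hp₀))
  have hz2 : ∀ r, ∃ s, r * z - z * s ∈ P := by
    intro r
    obtain ⟨s, hs⟩ := hz'2 r
    refine ⟨s, ?_⟩
    have h1 : r * z - z * s = (r * (z + p₀) - (z + p₀) * s) - (r * p₀ - p₀ * s) := by
      noncomm_ring
    rw [h1]
    exact P.sub_mem hs (P.sub_mem (P.mul_mem_left r hp₀) (hPt.mul_mem_of_left s hp₀))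
  have hzD : ∀ d ∈ D, z • d = 0 := (hQm z).1 hzQ
  -- the preimage of `M`
  have hN1 : ∀ y, D.mkQ y ∈ M → ∀ p ∈ P, p • y ∈ D := by
    intro y hy p hp
    have h1 : D.mkQ (p • y) = 0 := by
      rw [map_smul]
      exact (hPm p).1 hp _ hy
    exact (Submodule.Quotient.mk_eq_zero D).mp h1
  have hQPN : ∀ y, D.mkQ y ∈ M → ∀ x ∈ QP, x • y = 0 := by
    intro y hy x hx
    refine Submodule.span_induction (p := fun a _ => a • y = 0) ?_ ?_ ?_ ?_ hx
    · rintro _ ⟨q, hq, p, hp, rfl⟩
      rw [mul_smul]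
      exact (hQm q).1 hq _ (hN1 y hy p hp)
    · exact zero_smul _ _
    · intro a b _ _ ha hb
      rw [add_smul, ha, hb, add_zero]
    · intro c x _ hx
      rw [smul_eq_mul, mul_smul, hx, smul_zero]
  have hPz : ∀ y, D.mkQ y ∈ M → ∀ p ∈ P, p • z • y = 0 := by
    intro y hy p hp
    rw [← mul_smul]
    exact hQPN y hy _ (hzJ p hp)
  -- the submodule `z ^ 2 N`
  let N' : Submodule R X :=
    { carrier := {x | ∃ y, D.mkQ y ∈ M ∧ x = z • z • y}
      add_mem' := by
        rintro _ _ ⟨a, ha, rfl⟩ ⟨b, hb, rfl⟩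
        refine ⟨a + b, ?_, ?_⟩
        · rw [map_add]; exact M.add_mem ha hb
        · rw [smul_add, smul_add]
      zero_mem' := ⟨0, by rw [map_zero]; exact M.zero_mem, by rw [smul_zero, smul_zero]⟩
      smul_mem' := by
        rintro r _ ⟨y, hy, rfl⟩
        obtain ⟨r', hr'⟩ := hz2 r
        obtain ⟨r'', hr''⟩ := hz2 r'
        refine ⟨r'' • y, ?_, ?_⟩
        · rw [map_smul]; exact M.smul_mem _ hy
        · have h1 : r • z • z • y = z • r' • z • y := by
            have h2 := hPz y hy _ hr'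
            rw [sub_smul, sub_eq_zero, mul_smul, mul_smul] at h2
            exact h2
          have h3 : z • r' • z • y = z • z • r'' • y := by
            have h4 := hzD _ (hN1 y hy _ hr'')
            rw [sub_smul, smul_sub, sub_eq_zero, mul_smul, mul_smul] at h4
            exact h4
          rw [h1, h3] }
  have hinj : ∀ m ∈ M, z • m = 0 → m = 0 := by
    intro m hm hzm
    by_contra hm0
    apply hzP
    rw [hPm]
    intro x hx
    have h1 := hM.2 z ⟨m, hm⟩ (fun h => hm0 (congrArg Subtype.val h)) (fun r => by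
      obtain ⟨s, hs⟩ := hz1 r
      have h2 := (hPm _).1 hs m hm
      rw [sub_smul, sub_eq_zero, mul_smul, mul_smul, hzm, smul_zero] at h2
      exact Subtype.ext h2) ⟨x, hx⟩
    exact congrArg Subtype.val h1
  have hN'0 : N' ≠ ⊥ := by
    obtain ⟨m, hmM, hm0⟩ := Submodule.exists_mem_ne_zero_of_ne_bot hM0
    obtain ⟨y, rfl⟩ := D.mkQ_surjective m
    intro h
    have h1 : z • z • y ∈ N' := ⟨y, hmM, rfl⟩
    rw [h, Submodule.mem_bot] at h1
    have h2 : z • z • D.mkQ y = 0 := by
      rw [← map_smul, ← map_smul, h1, map_zero]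
    exact hm0 (hinj _ hmM (hinj _ (M.smul_mem z hmM) h2))
  have hess' := hess N' hN'0
  obtain ⟨x, ⟨hxU, ⟨y, hy, rfl⟩⟩, hx0⟩ := Submodule.exists_mem_ne_zero_of_ne_bot hess'
  have hUD : U ≤ D := hmax U ((TI.fd_iff U).2 hU)
  have h1 : D.mkQ (z • z • y) = 0 := (Submodule.Quotient.mk_eq_zero D).mpr (hUD hxU)
  rw [map_smul, map_smul] at h1
  have h2 : D.mkQ y = 0 := hinj _ hy (hinj _ (M.smul_mem z hy) h1)
  have h3 : y ∈ D := (Submodule.Quotient.mk_eq_zero D).mp h2
  apply hx0
  rw [hzD y h3, smul_zero]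

end Pool.Agent.Helper377_NS
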